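import Mathlib

section

namespace Pool.Agent.MP_4faeaf_lc

open Cardinal Set

universe u

/-- A coherent sequence of finite-to-one maps. -/
theorem exists_coherent (W : Type u) [LinearOrder W] [WellFoundedLT W]
    (ct : ∀ x : W, (Iio x).Countable) :
    ∃ e : W → W → ℕ, (∀ η k, {ξ | ξ < η ∧ e η ξ ≤ k}.Finite) ∧
      ∀ ζ η, ζ ≤ η → {ξ | ξ < ζ ∧ e η ξ ≠ e ζ ξ}.Finite := by
  classical
  have h : ∀ η : W, ∃ x : ℕ → W, ∀ ξ < η, (∀ n, x n < η) ∧ ∃ n, ξ ≤ x n := by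
    intro η
    rcases (Iio η).eq_empty_or_nonempty with h | h
    · exact ⟨fun _ => η, fun ξ hξ => absurd (show ξ ∈ Iio η from hξ) (by simp [h])⟩
    · obtain ⟨x, hx⟩ := (ct η).exists_eq_range h
      refine ⟨x, fun ξ hξ => ⟨fun n => (hx ▸ mem_range_self n : x n ∈ Iio η), ?_⟩⟩
      obtain ⟨n, rfl⟩ : ξ ∈ range x := hx ▸ hξ
      exact ⟨n, le_rfl⟩
  choose x hx using h
  let e : W → W → ℕ := (wellFounded_lt (α := W)).fix fun η ih ξ =>
    if h : ξ < η then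
      max (Nat.find (hx η ξ h).2) (ih (x η (Nat.find (hx η ξ h).2)) ((hx η ξ h).1 _) ξ)
    else 0
  have he : ∀ η ξ (h : ξ < η),
      e η ξ = max (Nat.find (hx η ξ h).2) (e (x η (Nat.find (hx η ξ h).2)) ξ) := by
    intro η ξ h
    conv_lhs => simp only [e]; rw [WellFounded.fix_eq]
    rw [dif_pos h]
  have fin : ∀ η k, {ξ | ξ < η ∧ e η ξ ≤ k}.Finite := by
    intro η
    induction η using WellFoundedLT.induction with
    | ind η ih =>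
      intro k
      rcases (Iio η).eq_empty_or_nonempty with h | ⟨ξ₀, h₀⟩
      · exact finite_empty.subset fun ξ hξ => h ▸ hξ.1
      refine ((finite_Iic k).biUnion fun n _ =>
        (ih (x η n) ((hx η ξ₀ h₀).1 n) k).insert (x η n)).subset ?_
      rintro ξ ⟨h₁, h₂⟩
      rw [he η ξ h₁, max_le_iff] at h₂
      refine mem_biUnion (x := Nat.find (hx η ξ h₁).2) h₂.1 ?_
      rcases (Nat.find_spec (hx η ξ h₁).2).eq_or_lt with h | h
      exacts [Or.inl h, Or.inr ⟨h, h₂.2⟩]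
  refine ⟨e, fin, fun ζ η => ?_⟩
  induction η using WellFoundedLT.induction generalizing ζ with
  | ind η ih =>
    intro hζ
    rcases hζ.eq_or_lt with rfl | hζ
    · simp
    obtain ⟨hlt, n₀, hn₀⟩ := hx η ζ hζ
    have key : ∀ n, {ξ | ξ < ζ ∧ ξ < x η n ∧ e (x η n) ξ ≠ e ζ ξ}.Finite := by
      intro n
      rcases le_total ζ (x η n) with h | h
      · exact (ih _ (hlt n) ζ h).subset fun ξ hξ => ⟨hξ.1, hξ.2.2⟩
      · exact (ih _ hζ _ h).subset fun ξ hξ => ⟨hξ.2.1, hξ.2.2.symm⟩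
    refine ((finite_Iic n₀).biUnion fun n _ =>
      ((fin (x η n) n).union (key n)).insert (x η n)).subset ?_
    rintro ξ ⟨h₁, h₂⟩
    have h₃ := h₁.trans hζ
    rw [he η ξ h₃] at h₂
    refine mem_biUnion (x := Nat.find (hx η ξ h₃).2)
      (Nat.find_min' (hx η ξ h₃).2 (h₁.le.trans hn₀)) ?_
    rcases (Nat.find_spec (hx η ξ h₃).2).eq_or_lt with h | h
    · exact Or.inl h
    · right
      rcases le_total (e (x η (Nat.find (hx η ξ h₃).2)) ξ) (Nat.find (hx η ξ h₃).2) with h' | h'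
      · exact Or.inl ⟨h, h'⟩
      · rw [max_eq_right h'] at h₂
        exact Or.inr ⟨h₁, h, h₂⟩

theorem countable_codes {W : Type u} [LinearOrder W] (ct : ∀ x : W, (Iio x).Countable)
    {e : W → W → ℕ} (he : ∀ ζ η, ζ ≤ η → {ξ | ξ < ζ ∧ e η ξ ≠ e ζ ξ}.Finite) (δ : W) :
    (range fun η => {y : W × ℕ | y.1 < δ ∧ e η y.1 = y.2}).Countable := by
  have h₁ : (Iio δ ×ˢ (univ : Set ℕ)).Countable := (ct δ).prod countable_univ
  let c : W → Set (W × ℕ) := fun η => {y | y.1 < δ ∧ e η y.1 = y.2}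
  refine (((ct δ).image c).union ((countable_ofPred_finite_subset h₁).image
    fun t => symmDiff (c δ) t)).mono ?_
  rintro _ ⟨η, rfl⟩
  rcases lt_or_ge η δ with h | h
  · exact Or.inl ⟨η, h, rfl⟩
  · refine Or.inr ⟨symmDiff (c δ) (c η), ⟨?_, ?_⟩, by simp [c]⟩
    · refine (((he δ η h).image fun ξ => (ξ, e δ ξ)).union
        ((he δ η h).image fun ξ => (ξ, e η ξ))).subset ?_
      rintro ⟨ξ, k⟩ (⟨⟨h₂, h₅⟩, h₃⟩ | ⟨⟨h₂, h₅⟩, h₃⟩)
      · exact Or.inl ⟨ξ, ⟨h₂, fun h₄ => h₃ ⟨h₂, h₄.trans h₅⟩⟩, Prod.ext rfl h₅⟩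
      · exact Or.inr ⟨ξ, ⟨h₂, fun h₄ => h₃ ⟨h₂, h₄.symm.trans h₅⟩⟩, Prod.ext rfl h₅⟩
    · rintro ⟨ξ, k⟩ (⟨⟨h₂, -⟩, -⟩ | ⟨⟨h₂, -⟩, -⟩) <;> exact ⟨h₂, trivial⟩

/-- A measurable cardinal, as a well-order with a measure. -/
class Ms (X : Type u) [LinearOrder X] where
  U : Ultrafilter X
  wf : WellFoundedLT X
  comp : ∀ {ι : Type u} (s : ι → Set X), #ι < #X → (∀ i, s i ∈ U) → (⋂ i, s i) ∈ U
  np : ∀ x, {x} ∉ U
  small : ∀ x : X, #(Iio x) < #X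
  unc : ℵ₀ < #X

variable {X : Type u} [LinearOrder X] [Ms X]

instance : WellFoundedLT X := Ms.wf

/-- The measure. -/
abbrev UU (X : Type u) [LinearOrder X] [Ms X] : Ultrafilter X := Ms.U

theorem comp_ct {ι : Type*} [Countable ι] (s : ι → Set X) (h : ∀ i, s i ∈ UU X) :
    (⋂ i, s i) ∈ UU X := by
  rcases isEmpty_or_nonempty ι with h' | h'
  · rw [iInter_of_empty]; exact Filter.univ_mem
  obtain ⟨f, hf⟩ := exists_surjective_nat ι
  have := Ms.comp (ι := ULift.{u} ℕ) (fun n => s (f n.down)) (by simpa using Ms.unc) fun n => h _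
  refine Filter.mem_of_superset this fun x hx => mem_iInter.2 fun i => ?_
  obtain ⟨n, rfl⟩ := hf i
  exact mem_iInter.1 hx ⟨n⟩

theorem const_set {Z : Type u} (hZ : #Z < #X) (F : X → Set Z) :
    ∃ z, {α | F α = z} ∈ UU X := by
  refine ⟨{z | {α | z ∈ F α} ∈ UU X}, ?_⟩
  have : ∀ z, {α | z ∈ F α ↔ {α | z ∈ F α} ∈ UU X} ∈ UU X := by
    intro z
    by_cases h : {α | z ∈ F α} ∈ UU X
    · exact Filter.mem_of_superset h fun α hα => iff_of_true hα h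
    · exact Filter.mem_of_superset (Ultrafilter.compl_mem_iff_notMem.2 h)
        fun α hα => iff_of_false hα h
  refine Filter.mem_of_superset (Ms.comp _ hZ this) fun α hα => ?_
  ext z
  exact mem_iInter.1 hα z

theorem ne_mem (x : X) : {α | α ≠ x} ∈ UU X := Ultrafilter.compl_mem_iff_notMem.2 (Ms.np x)

theorem Ioi_mem (x : X) : Ioi x ∈ UU X := by
  refine Filter.mem_of_superset (Filter.inter_mem (Ms.comp (fun y : Iio x => {α | α ≠ y.1})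
    (Ms.small x) fun y => ne_mem y.1) (ne_mem x)) fun α hα => ?_
  rcases lt_trichotomy α x with h | h | h
  · exact absurd rfl (mem_iInter.1 hα.1 ⟨α, h⟩)
  · exact absurd h hα.2
  · exact h

theorem exists_reals_emb : ∃ (γ : X) (j : Set (ULift.{u} ℕ) ↪ X), ∀ A, j A < γ := by
  have h : #(Set (ULift.{u} ℕ)) < #X := by
    by_contra h
    obtain ⟨F⟩ := not_lt.1 h
    obtain ⟨z, hz⟩ := const_set (Z := ULift.{u} ℕ) (by simpa using Ms.unc) F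
    obtain ⟨α, hα⟩ := Ultrafilter.nonempty_of_mem hz
    exact Ms.np α (Filter.mem_of_superset hz fun β hβ => F.injective (hβ.trans hα.symm))
  obtain ⟨j⟩ := h.le
  obtain ⟨γ, hγ⟩ := Ultrafilter.nonempty_of_mem (Ms.comp (fun A => Ioi (j A)) h fun A => Ioi_mem _)
  exact ⟨γ, j, fun A => mem_iInter.1 hγ A⟩

theorem exists_unc : ∃ x : X, ¬ (Iio x).Countable := by
  obtain ⟨γ, j, h⟩ := exists_reals_emb (X := X)
  refine ⟨γ, fun hc => ?_⟩
  have h₁ : (univ : Set (Set (ULift.{u} ℕ))).Countable :=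
    (hc.preimage j.injective).mono fun A _ => h A
  have h₂ := mk_le_aleph0_iff.2 (countable_univ_iff.1 h₁)
  have h₃ := cantor #(ULift.{u} ℕ)
  rw [← mk_set] at h₃
  simpa using h₃.trans_le h₂

variable (X) in
/-- The first uncountable ordinal inside `X`. -/
noncomputable def w1 : X := wellFounded_lt.min {x : X | ¬ (Iio x).Countable} exists_unc

theorem w1_unc : ¬ (Iio (w1 X)).Countable :=
  wellFounded_lt.min_mem {x : X | ¬ (Iio x).Countable} exists_unc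

theorem ct_of_lt {x : X} (h : x < w1 X) : (Iio x).Countable := by
  by_contra h'
  exact wellFounded_lt.not_lt_min {x : X | ¬ (Iio x).Countable} h' h

variable (X) in
/-- The countable ordinals. -/
abbrev W : Type u := Iio (w1 X)

theorem W.ct (x : W X) : (Iio x).Countable :=
  ((ct_of_lt x.2).preimage Subtype.val_injective).mono fun _ h => h

theorem W.exists_gt {s : Set (W X)} (hs : s.Countable) : ∃ b, ∀ x ∈ s, x < b := by
  by_contra h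
  push Not at h
  refine w1_unc (X := X) (((hs.biUnion fun x _ => (W.ct x).insert x).image Subtype.val).mono ?_)
  intro b hb
  obtain ⟨x, hx, h'⟩ := h ⟨b, hb⟩
  exact ⟨⟨b, hb⟩, mem_biUnion hx h'.eq_or_lt, rfl⟩

theorem W.exists_gt' (x : W X) : ∃ b, x < b := by
  obtain ⟨b, hb⟩ := W.exists_gt (countable_singleton x)
  exact ⟨b, hb x rfl⟩

instance : Nonempty (W X) := by
  obtain ⟨b, -⟩ := W.exists_gt (X := X) countable_empty
  exact ⟨b⟩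

variable (X) in
noncomputable def w0 : W X := wellFounded_lt.min univ univ_nonempty

theorem not_lt_w0 (x : W X) : ¬ x < w0 X := wellFounded_lt.not_lt_min univ (mem_univ x)

theorem mk_W : #(W X) < #X := Ms.small _

end Pool.Agent.MP_4faeaf_lc

end

section

namespace Pool.Agent.MP_4faeaf_lc

open Cardinal Set

universe u

/-- Conditions: a countable piece of a Kurepa family together with a piece of the collapse. -/
structure Cond (X : Type u) [LinearOrder X] [Ms X] where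
  δ : W X
  a : Set X
  f : X → Set (W X)
  c : Set (X × X × W X)
  a_ct : a.Countable
  a_ne : w1 X ∈ a
  f_lt : ∀ α, ∀ ξ ∈ f α, ξ < δ
  c_ct : c.Countable
  c_lt : ∀ z ∈ c, z.2.1 < z.1
  c_fun : ∀ z ∈ c, ∀ z' ∈ c, z.1 = z'.1 → (z.2.1 = z'.2.1 ↔ z.2.2 = z'.2.2)

variable {X : Type u} [LinearOrder X] [Ms X]

namespace Cond

structure Ext (q p : Cond X) : Prop where
  δ : p.δ ≤ q.δ
  a : p.a ⊆ q.a
  f : ∀ α ∈ p.a, ∀ ξ < p.δ, (ξ ∈ q.f α ↔ ξ ∈ p.f α)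
  k : ∀ β ∈ q.a, ∃ α ∈ p.a, ∀ ξ < p.δ, (ξ ∈ q.f β ↔ ξ ∈ p.f α)
  c : p.c ⊆ q.c

instance : Preorder (Cond X) where
  le := Ext
  le_refl p := ⟨le_rfl, Subset.rfl, fun _ _ _ _ => Iff.rfl, fun β h => ⟨β, h, fun _ _ => Iff.rfl⟩,
    Subset.rfl⟩
  le_trans r q p h₁ h₂ := by
    refine ⟨h₂.δ.trans h₁.δ, h₂.a.trans h₁.a, fun α hα ξ hξ => ?_, fun β hβ => ?_,
      h₂.c.trans h₁.c⟩
    · exact (h₁.f α (h₂.a hα) ξ (hξ.trans_le h₂.δ)).trans (h₂.f α hα ξ hξ)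
    · obtain ⟨α, hα, e⟩ := h₁.k β hβ
      obtain ⟨α', hα', e'⟩ := h₂.k α hα
      exact ⟨α', hα', fun ξ hξ => (e ξ (hξ.trans_le h₂.δ)).trans (e' ξ hξ)⟩

noncomputable instance : OrderTop (Cond X) where
  top := ⟨w0 X, {w1 X}, fun _ => ∅, ∅, countable_singleton _, rfl, by simp, countable_empty,
    by simp, by simp⟩
  le_top p := ⟨not_lt.1 (not_lt_w0 _), by rintro _ rfl; exact p.a_ne,
    fun _ _ _ h => absurd h (not_lt_w0 _), fun _ _ => ⟨_, rfl, fun _ h => absurd h (not_lt_w0 _)⟩,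
    empty_subset _⟩

theorem closed' (s : ℕ → Cond X) (hs : Antitone s) :
    ∃ q : Cond X, (∀ n, q ≤ s n) ∧ ∀ α ∈ q.a, ∃ n, α ∈ (s n).a := by
  have hle : ∀ n m, Ext (s (max n m)) (s n) ∧ Ext (s (max n m)) (s m) := fun n m =>
    ⟨hs (le_max_left _ _), hs (le_max_right _ _)⟩
  obtain ⟨b, hb⟩ := W.exists_gt (countable_range fun n => (s n).δ)
  replace hb : ∀ n, (s n).δ < b := fun n => hb _ ⟨n, rfl⟩
  have hf : ∀ n, ∀ α ∈ (s n).a, ∀ ξ < (s n).δ,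
      ((∃ m, α ∈ (s m).a ∧ ξ ∈ (s m).f α) ↔ ξ ∈ (s n).f α) := by
    intro n α hα ξ hξ
    refine ⟨fun ⟨m, h₁, h₂⟩ => ?_, fun h => ⟨n, hα, h⟩⟩
    exact ((hle n m).1.f α hα ξ hξ).1 (((hle n m).2.f α h₁ ξ ((s m).f_lt _ _ h₂)).2 h₂)
  refine ⟨⟨b, ⋃ n, (s n).a, fun α => {ξ | ∃ m, α ∈ (s m).a ∧ ξ ∈ (s m).f α}, ⋃ n, (s n).c,
    countable_iUnion fun n => (s n).a_ct, mem_iUnion.2 ⟨0, (s 0).a_ne⟩,
    fun α ξ ⟨m, _, h⟩ => ((s m).f_lt _ _ h).trans (hb m),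
    countable_iUnion fun n => (s n).c_ct, ?_, ?_⟩,
    fun n => ⟨(hb n).le, subset_iUnion (fun n => (s n).a) n, hf n, fun β hβ => ?_,
      subset_iUnion (fun n => (s n).c) n⟩, fun α h => mem_iUnion.1 h⟩
  · intro z hz
    obtain ⟨n, hn⟩ := mem_iUnion.1 hz
    exact (s n).c_lt z hn
  · intro x hx y hy
    obtain ⟨n, hn⟩ := mem_iUnion.1 hx
    obtain ⟨m, hm⟩ := mem_iUnion.1 hy
    exact (s (max n m)).c_fun x ((hle n m).1.c hn) y ((hle n m).2.c hm)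
  · obtain ⟨m, hm⟩ := mem_iUnion.1 hβ
    have h₁ := (hle n m).2.a hm
    obtain ⟨α, hα, e⟩ := (hle n m).1.k β h₁
    exact ⟨α, hα, fun ξ hξ => (hf _ β h₁ ξ (hξ.trans_le (hle n m).1.δ)).trans (e ξ hξ)⟩

theorem closed (s : ℕ → Cond X) (hs : Antitone s) : ∃ q, ∀ n, q ≤ s n :=
  let ⟨q, h, _⟩ := closed' s hs
  ⟨q, h⟩

theorem add_idx (p : Cond X) (β : X) : ∃ q ≤ p, β ∈ q.a := by
  classical
  by_cases h : β ∈ p.a
  · exact ⟨p, le_rfl, h⟩
  refine ⟨⟨p.δ, insert β p.a, fun α => if α = β then p.f (w1 X) else p.f α, p.c, p.a_ct.insert _,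
    Or.inr p.a_ne, fun α ξ hξ => ?_, p.c_ct, p.c_lt, p.c_fun⟩,
    ⟨le_rfl, subset_insert _ _, fun α hα ξ _ => ?_, fun α hα => ?_, Subset.rfl⟩, mem_insert _ _⟩
  · split_ifs at hξ <;> exact p.f_lt _ _ hξ
  · have : α ≠ β := fun e => h (e ▸ hα)
    simp [this]
  · by_cases e : α = β
    · exact ⟨w1 X, p.a_ne, fun ξ _ => by simp [e]⟩
    · exact ⟨α, hα.resolve_left e, fun ξ _ => by simp [e]⟩

theorem raise (p : Cond X) (η : W X) : ∃ q ≤ p, η < q.δ := by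
  obtain ⟨b, hb⟩ := W.exists_gt' (max η p.δ)
  have h : p.δ < b := (le_max_right _ _).trans_lt hb
  exact ⟨⟨b, p.a, p.f, p.c, p.a_ct, p.a_ne, fun α ξ hξ => (p.f_lt _ _ hξ).trans h, p.c_ct, p.c_lt,
    p.c_fun⟩, ⟨h.le, Subset.rfl, fun _ _ _ _ => Iff.rfl, fun β h => ⟨β, h, fun _ _ => Iff.rfl⟩,
    Subset.rfl⟩, (le_max_left _ _).trans_lt hb⟩

/-- The condition decides that two branches differ at `η`. -/
def Diff (p : Cond X) (α β : X) (η : W X) : Prop :=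
  α ∈ p.a ∧ β ∈ p.a ∧ η < p.δ ∧ ¬ (η ∈ p.f α ↔ η ∈ p.f β)

theorem Diff.mono {p q : Cond X} {α β : X} {η : W X} (h : p.Diff α β η) (hq : q ≤ p) :
    q.Diff α β η :=
  ⟨hq.a h.1, hq.a h.2.1, h.2.2.1.trans_le hq.δ, by
    rw [hq.f α h.1 η h.2.2.1, hq.f β h.2.1 η h.2.2.1]; exact h.2.2.2⟩

theorem split (p : Cond X) {α β : X} (h : α ≠ β) : ∃ q ≤ p, ∃ η, q.Diff α β η := by
  classical
  obtain ⟨p₁, h₁, hα⟩ := p.add_idx α
  obtain ⟨r, h₂, hβ⟩ := p₁.add_idx β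
  obtain ⟨b, hb⟩ := W.exists_gt' r.δ
  have e : ∀ γ, ∀ ξ < r.δ, (ξ ∈ (if γ = β then insert r.δ (r.f γ) else r.f γ) ↔ ξ ∈ r.f γ) := by
    intro γ ξ hξ
    split_ifs
    · simp [hξ.ne]
    · rfl
  refine ⟨⟨b, r.a, fun γ => if γ = β then insert r.δ (r.f γ) else r.f γ, r.c, r.a_ct, r.a_ne,
    fun γ ξ hξ => ?_, r.c_ct, r.c_lt, r.c_fun⟩,
    le_trans (show Ext _ r from ⟨hb.le, Subset.rfl, fun γ _ => e γ, fun γ hγ => ⟨γ, hγ, e γ⟩,
      Subset.rfl⟩) (h₂.trans h₁), r.δ, h₂.a hα, hβ, hb, ?_⟩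
  · split_ifs at hξ
    · rcases hξ with rfl | hξ
      exacts [hb, (r.f_lt _ _ hξ).trans hb]
    · exact (r.f_lt _ _ hξ).trans hb
  · have : r.δ ∉ r.f α := fun h => lt_irrefl _ (r.f_lt _ _ h)
    simp [h, this]

theorem add_dom (p : Cond X) {γ x : X} (hx : x < γ) : ∃ q ≤ p, ∃ ξ, (γ, x, ξ) ∈ q.c := by
  by_cases h : ∃ ξ, (γ, x, ξ) ∈ p.c
  · exact ⟨p, le_rfl, h⟩
  push Not at h
  obtain ⟨ξ, hξ⟩ := W.exists_gt (p.c_ct.image fun z => z.2.2)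
  have h₁ : ∀ z ∈ p.c, γ = z.1 → ¬ x = z.2.1 := by
    rintro ⟨_, _, ζ⟩ hz rfl rfl
    exact h ζ hz
  have h₂ : ∀ z ∈ p.c, ¬ ξ = z.2.2 := fun z hz e => (hξ _ ⟨z, hz, rfl⟩).ne e.symm
  refine ⟨⟨p.δ, p.a, p.f, insert (γ, x, ξ) p.c, p.a_ct, p.a_ne, p.f_lt, p.c_ct.insert _,
    ?_, ?_⟩, ⟨le_rfl, Subset.rfl, fun _ _ _ _ => Iff.rfl, fun β h => ⟨β, h, fun _ _ => Iff.rfl⟩,
      subset_insert _ _⟩, ξ, mem_insert _ _⟩
  · rintro z (rfl | hz)
    exacts [hx, p.c_lt z hz]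
  · rintro z (rfl | hz) z' (rfl | hz') e
    · simp
    · exact iff_of_false (h₁ z' hz' e) (h₂ z' hz')
    · exact iff_of_false (fun e' => h₁ z hz e.symm e'.symm) (fun e' => h₂ z hz e'.symm)
    · exact p.c_fun z hz z' hz' e

/-- The support of a condition. -/
def supp (p : Cond X) : Set X := p.a ∪ ((fun z => z.1) '' p.c ∪ (fun z => z.2.1) '' p.c)

theorem amalg (p q : Cond X) (x y : ℕ → X) (hx : p.supp = range x) (hy : q.supp = range y)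
    (hδ : p.δ = q.δ) (ha : ∀ n, x n ∈ p.a ↔ y n ∈ q.a) (hf : ∀ n, p.f (x n) = q.f (y n))
    (hc : ∀ n m ξ, (x n, x m, ξ) ∈ p.c ↔ (y n, y m, ξ) ∈ q.c)
    (h : ∀ n, x n = y n ∨ ∀ m, x m < y n) : ∃ r, r ≤ p ∧ r ≤ q := by
  classical
  have h₁ : ∀ n m, y n ≤ x m → x n = y n := fun n m e =>
    (h n).resolve_right fun h' => (h' m).not_ge e
  have sa : ∀ α ∈ p.a, ∃ n, x n = α := fun α h => hx.le (Or.inl h)
  have sb : ∀ α ∈ q.a, ∃ n, y n = α := fun α h => hy.le (Or.inl h)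
  have key : ∀ z ∈ p.c, ∀ z' ∈ q.c, z.1 = z'.1 → z' ∈ p.c := by
    rintro ⟨γ, a, ξ⟩ hz ⟨γ', b, ξ'⟩ hz' e
    obtain ⟨k, rfl⟩ : γ ∈ range x := hx.le (Or.inr (Or.inl ⟨_, hz, rfl⟩))
    obtain ⟨n, rfl⟩ : γ' ∈ range y := hy.le (Or.inr (Or.inl ⟨_, hz', rfl⟩))
    obtain ⟨m, rfl⟩ : b ∈ range y := hy.le (Or.inr (Or.inr ⟨_, hz', rfl⟩))
    have e₁ : x k = y n := e
    have e₂ : y m < y n := q.c_lt _ hz'
    rw [← h₁ n k e₁.ge, ← h₁ m k (e₁ ▸ e₂.le)]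
    exact (hc n m ξ').2 hz'
  have hq : ∀ β ∈ q.a, (if β ∈ p.a then p.f β else q.f β) = q.f β := by
    intro β hβ
    split_ifs with h'
    · obtain ⟨n, rfl⟩ := sb β hβ
      obtain ⟨m, hm⟩ := sa _ h'
      rw [← hf n, h₁ n m hm.ge]
    · rfl
  refine ⟨⟨p.δ, p.a ∪ q.a, fun α => if α ∈ p.a then p.f α else q.f α, p.c ∪ q.c,
    p.a_ct.union q.a_ct, Or.inl p.a_ne, fun α ξ hξ => ?_, p.c_ct.union q.c_ct, ?_, ?_⟩,
    ⟨le_rfl, subset_union_left, fun α hα ξ _ => by simp [hα], fun β hβ => ?_, subset_union_left⟩,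
    ⟨hδ.ge, subset_union_right, fun α hα ξ _ => by simp only [hq α hα], fun β hβ => ?_,
      subset_union_right⟩⟩
  · split_ifs at hξ
    exacts [p.f_lt _ _ hξ, hδ ▸ q.f_lt _ _ hξ]
  · rintro z (hz | hz)
    exacts [p.c_lt z hz, q.c_lt z hz]
  · rintro z (hz | hz) z' (hz' | hz') e
    · exact p.c_fun z hz z' hz' e
    · exact p.c_fun z hz z' (key z hz z' hz' e) e
    · exact p.c_fun z (key z' hz' z hz e.symm) z' hz' e
    · exact q.c_fun z hz z' hz' e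
  · rcases hβ with hβ | hβ
    · exact ⟨β, hβ, fun ξ _ => by simp [hβ]⟩
    · obtain ⟨n, rfl⟩ := sb β hβ
      exact ⟨x n, (ha n).2 hβ, fun ξ _ => by simp only [hq _ hβ, hf]⟩
  · rcases hβ with hβ | hβ
    · obtain ⟨n, rfl⟩ := sa β hβ
      exact ⟨y n, (ha n).1 hβ, fun ξ _ => by simp [hβ, hf]⟩
    · exact ⟨β, hβ, fun ξ _ => by simp only [hq _ hβ]⟩

theorem cc (q : X → Cond X) : ∃ α β, α ≠ β ∧ ∃ r, r ≤ q α ∧ r ≤ q β := by
  have hs : ∀ α, ∃ x : ℕ → X, (q α).supp = range x := fun α =>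
    ((q α).a_ct.union (((q α).c_ct.image _).union ((q α).c_ct.image _))).exists_eq_range
      ⟨_, Or.inl (q α).a_ne⟩
  choose x hx using hs
  let Z := ULift.{u} (ℕ × ℕ × ℕ) × W X
  have hZ : #Z < #X := by
    simp only [Z, mk_prod, lift_id, mk_eq_aleph0]
    exact mul_lt_of_lt Ms.unc.le Ms.unc mk_W
  let T : X → Set Z := fun α => {z | (z.1.down.1 = 0 ∧ z.2 = (q α).δ) ∨
    (z.1.down.1 = 1 ∧ x α z.1.down.2.1 ∈ (q α).a) ∨
    (z.1.down.1 = 2 ∧ z.2 ∈ (q α).f (x α z.1.down.2.1)) ∨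
    (z.1.down.1 = 3 ∧ (x α z.1.down.2.1, x α z.1.down.2.2, z.2) ∈ (q α).c)}
  obtain ⟨t, ht⟩ := const_set hZ T
  have hn : ∀ n, ∃ Y ∈ UU X, (∀ α ∈ Y, ∀ β ∈ Y, x α n = x β n) ∨
      ∀ y, {β | y < x β n} ∈ UU X := by
    intro n
    by_cases h : ∃ y, {β | x β n = y} ∈ UU X
    · obtain ⟨y, hy⟩ := h
      exact ⟨_, hy, Or.inl fun α hα β hβ => hα.trans hβ.symm⟩
    · refine ⟨univ, Filter.univ_mem, Or.inr fun y => ?_⟩
      have h' : ∀ y, {β | x β n ≠ y} ∈ UU X := fun y =>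
        Ultrafilter.compl_mem_iff_notMem.2 fun h' => h ⟨y, h'⟩
      refine Filter.mem_of_superset (Filter.inter_mem (Ms.comp
        (fun z : Iio y => {β | x β n ≠ z.1}) (Ms.small y) fun z => h' z.1) (h' y)) fun β hβ => ?_
      rcases lt_trichotomy (x β n) y with h | h | h
      · exact absurd rfl (mem_iInter.1 hβ.1 ⟨_, h⟩)
      · exact absurd h hβ.2
      · exact h
  choose Y hY hY' using hn
  have hA := Filter.inter_mem ht (comp_ct Y hY)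
  obtain ⟨α, hα⟩ := Ultrafilter.nonempty_of_mem hA
  have hB : (⋂ z : ℕ × ℕ, {β | β ∈ Y z.1 → x α z.1 = x β z.1 ∨ x α z.2 < x β z.1}) ∈ UU X := by
    refine comp_ct _ fun z => ?_
    rcases hY' z.1 with h | h
    · exact Filter.univ_mem' fun β hβ => Or.inl (h α (mem_iInter.1 hα.2 _) β hβ)
    · exact Filter.mem_of_superset (h _) fun β hβ _ => Or.inr hβ
  obtain ⟨β, ⟨hβ, hβ'⟩, hne⟩ :=
    Ultrafilter.nonempty_of_mem (Filter.inter_mem (Filter.inter_mem hA hB) (ne_mem α))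
  have e : ∀ z, z ∈ T α ↔ z ∈ T β := fun z => by rw [show T α = t from hα.1, show T β = t from hβ.1]
  refine ⟨α, β, fun h => hne h.symm, amalg _ _ (x α) (x β) (hx α) (hx β) ?_ (fun n => ?_)
    (fun n => ?_) (fun n m ξ => ?_) fun n => ?_⟩
  · simpa [T] using e (⟨0, 0, 0⟩, (q α).δ)
  · simpa [T] using e (⟨1, n, 0⟩, (q α).δ)
  · ext ξ
    simpa [T] using e (⟨2, n, 0⟩, ξ)
  · simpa [T] using e (⟨3, n, m⟩, ξ)
  · by_cases h : x α n = x β n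
    · exact Or.inl h
    · exact Or.inr fun m => (mem_iInter.1 hβ' (n, m) (mem_iInter.1 hβ.2 n)).resolve_left h

/-- Every set of conditions has a small predense subset. -/
theorem small_predense (D : Set (Cond X)) :
    ∃ D' ⊆ D, #D' < #X ∧ ∀ p ∈ D, ∃ d ∈ D', ∃ r, r ≤ p ∧ r ≤ d := by
  obtain ⟨A, hA⟩ := zorn_subset {A : Set (Cond X) | A ⊆ D ∧
      ∀ p ∈ A, ∀ q ∈ A, (∃ r, r ≤ p ∧ r ≤ q) → p = q} (by
    intro c hc hch
    refine ⟨⋃₀ c, ⟨sUnion_subset fun A hA => (hc hA).1, ?_⟩, fun A hA => subset_sUnion_of_mem hA⟩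
    rintro p ⟨A, hA, hp⟩ q ⟨B, hB, hq⟩
    rcases hch.total hA hB with h | h
    exacts [(hc hB).2 p (h hp) q hq, (hc hA).2 p hp q (h hq)])
  refine ⟨A, hA.1.1, ?_, fun p hp => ?_⟩
  · by_contra h
    obtain ⟨F⟩ := not_lt.1 h
    obtain ⟨α, β, hne, h⟩ := cc fun α => (F α).1
    exact hne (F.injective (Subtype.ext (hA.1.2 _ (F α).2 _ (F β).2 h)))
  · by_contra h
    push Not at h
    have : insert p A ⊆ A := hA.2 ⟨insert_subset hp hA.1.1, by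
      rintro a (rfl | ha) b (rfl | hb) ⟨r, h₁, h₂⟩
      · rfl
      · exact absurd h₂ (h b hb r h₁)
      · exact absurd h₁ (h a ha r h₂)
      · exact hA.1.2 a ha b hb ⟨r, h₁, h₂⟩⟩ (subset_insert _ _)
    exact h p (this (mem_insert _ _)) p le_rfl le_rfl

theorem reduction (p : Cond X) (q : X → Cond X) {Y : Set X} (hY : Y ∈ UU X)
    (hq : ∀ α ∈ Y, q α ≤ p) :
    ∃ p' ≤ p, ∀ p'' ≤ p', {α | ∃ r, r ≤ q α ∧ r ≤ p''} ∈ UU X := by
  by_contra h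
  push Not at h
  obtain ⟨D, hD, hs, H⟩ := small_predense {d | {α | ∃ r, r ≤ q α ∧ r ≤ d} ∉ UU X}
  obtain ⟨α, h₁, h₂⟩ := Ultrafilter.nonempty_of_mem (Filter.inter_mem hY (Ms.comp
    (fun d : D => {α | ∃ r, r ≤ q α ∧ r ≤ d.1}ᶜ) hs
    fun d => Ultrafilter.compl_mem_iff_notMem.2 (hD d.2)))
  obtain ⟨p', hp', h'⟩ := h (q α) (hq α h₁)
  obtain ⟨d, hd, r, h₃, h₄⟩ := H p' h'
  exact mem_iInter.1 h₂ ⟨d, hd⟩ ⟨r, h₃.trans hp', h₄⟩

end Cond

end Pool.Agent.MP_4faeaf_lc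

end

section

namespace Pool.Agent.MP_4faeaf_lc

open Set

universe u

variable {X : Type u} [LinearOrder X] [Ms X]

/-- A name for a subset of `X`. -/
structure Cut (X : Type u) [LinearOrder X] [Ms X] where
  R : X → Cond X → Prop
  mono : ∀ α p q, q ≤ p → R α p → R α q

/-- The condition forces the point to lie on the given side of the cut. -/
def side : Cut X × Bool → X → Cond X → Prop
  | (C, true), α, r => C.R α r
  | (C, false), α, r => ∀ r' ≤ r, ¬ C.R α r'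

theorem side_mono {z : Cut X × Bool} {α : X} {p q : Cond X} (h : side z α p) (hq : q ≤ p) :
    side z α q := by
  obtain ⟨C, _ | _⟩ := z
  · exact fun r hr => h r (hr.trans hq)
  · exact C.mono _ _ _ hq h

/-- The combinatorial content of a name for a winning strategy of Choose. -/
structure Strat (X : Type u) [LinearOrder X] [Ms X] where
  p₀ : Cond X
  Ans : (ℕ → Cut X × Bool) → ℕ → Cond X → Prop
  mono : ∀ f k p q, q ≤ p → Ans f k p → Ans f k q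
  congr : ∀ f f' k p, (∀ i ≤ k, f i = f' i) → Ans f k p → Ans f' k p
  dense : ∀ f k p C, ∃ q ≤ p, ∃ b, Ans (Function.update f k (C, b)) k q
  win : ∀ f q, q ≤ p₀ → (∀ k, Ans f k q) →
    ∃ r ≤ q, ∃ α β, α ≠ β ∧ ∀ k, side (f k) α r ∧ side (f k) β r

namespace Strat

variable (S : Strat X)

/-- Positions. -/
structure St where
  p : Cond X
  n : ℕ
  f : ℕ → Cut X × Bool
  le : p ≤ S.p₀
  good : ∀ k < n, S.Ans f k p

variable {S}

instance : Preorder S.St where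
  le t s := t.p ≤ s.p ∧ s.n ≤ t.n ∧ ∀ k < s.n, t.f k = s.f k
  le_refl _ := ⟨le_rfl, le_rfl, fun _ _ => rfl⟩
  le_trans _ _ _ h₁ h₂ := ⟨h₁.1.trans h₂.1, h₂.2.1.trans h₁.2.1,
    fun k hk => (h₁.2.2 k (hk.trans_le h₂.2.1)).trans (h₂.2.2 k hk)⟩

def St.Has (s : S.St) (z : Cut X × Bool) : Prop := ∃ k < s.n, s.f k = z

theorem St.Has.mono {s t : S.St} {z : Cut X × Bool} (h : s.Has z) (ht : t ≤ s) : t.Has z := by
  obtain ⟨k, hk, e⟩ := h
  exact ⟨k, hk.trans_le ht.2.1, (ht.2.2 k hk).trans e⟩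

theorem ask' (s : S.St) (C : Cut X) :
    ∃ t ≤ s, s.n < t.n ∧ (t.Has (C, true) ∨ t.Has (C, false)) := by
  obtain ⟨q, hq, b, h⟩ := S.dense s.f s.n s.p C
  refine ⟨⟨q, s.n + 1, Function.update s.f s.n (C, b), hq.trans s.le, fun k hk => ?_⟩,
    ⟨hq, Nat.le_succ _, fun k hk => Function.update_of_ne hk.ne _ _⟩, Nat.lt_succ_self _, ?_⟩
  · rcases Nat.lt_succ_iff_lt_or_eq.1 hk with hk | rfl
    · exact S.congr _ _ _ _ (fun i hi => (Function.update_of_ne (hi.trans_lt hk).ne _ _).symm)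
        (S.mono _ _ _ _ hq (s.good k hk))
    · exact h
  · cases b
    · exact Or.inr ⟨s.n, Nat.lt_succ_self _, Function.update_self _ _ _⟩
    · exact Or.inl ⟨s.n, Nat.lt_succ_self _, Function.update_self _ _ _⟩

theorem ask (s : S.St) (C : Cut X) : ∃ t ≤ s, t.Has (C, true) ∨ t.Has (C, false) :=
  let ⟨t, h, _, h'⟩ := ask' s C
  ⟨t, h, h'⟩

theorem lower (s : S.St) {q : Cond X} (hq : q ≤ s.p) : ∃ t ≤ s, t.p = q :=
  ⟨⟨q, s.n, s.f, hq.trans s.le, fun k hk => S.mono _ _ _ _ hq (s.good k hk)⟩,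
    ⟨hq, le_rfl, fun _ _ => rfl⟩, rfl⟩

theorem lim' (s : ℕ → S.St) (hs : Antitone s) (q : Cond X) (hq : ∀ n, q ≤ (s n).p)
    (hu : ∀ k, ∃ m, k < (s m).n) :
    ∃ r ≤ q, ∃ α β, α ≠ β ∧ ∀ n z, (s n).Has z → side z α r ∧ side z β r := by
  choose m hm using hu
  have key : ∀ n, ∀ k < (s n).n, (s n).f k = (s (m k)).f k := fun n k hk =>
    ((hs (le_max_left n (m k))).2.2 k hk).symm.trans ((hs (le_max_right n (m k))).2.2 k (hm k))
  obtain ⟨r, hr, α, β, hne, h⟩ := S.win (fun k => (s (m k)).f k) q ((hq 0).trans (s 0).le)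
    fun k => S.congr _ _ _ _ (fun i hi => key _ i (hi.trans_lt (hm k)))
      (S.mono _ _ _ _ (hq _) ((s (m k)).good k (hm k)))
  refine ⟨r, hr, α, β, hne, ?_⟩
  rintro n _ ⟨k, hk, rfl⟩
  rw [key n k hk]
  exact h k

theorem lim (s : ℕ → S.St) (hs : Antitone s) (q : Cond X) (hq : ∀ n, q ≤ (s n).p) :
    ∃ r ≤ q, ∃ α β, α ≠ β ∧ ∀ n z, (s n).Has z → side z α r ∧ side z β r := by
  by_cases hu : ∀ k, ∃ m, k < (s m).n
  · exact lim' s hs q hq hu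
  push Not at hu
  obtain ⟨k, hk⟩ := hu
  have hb : BddAbove (range fun m => (s m).n) := ⟨k, by rintro _ ⟨m, rfl⟩; exact hk m⟩
  obtain ⟨N, hN⟩ := Nat.sSup_mem (range_nonempty fun m => (s m).n) hb
  have hN' : ∀ m, (s m).n ≤ (s N).n := fun m => (le_csSup hb ⟨m, rfl⟩).trans hN.ge
  obtain ⟨t₀, h₀, e₀⟩ := lower (s N) (hq N)
  choose nx h₁ h₂ _ using fun t : S.St => ask' t ⟨fun _ _ => True, fun _ _ _ _ h => h⟩
  let t : ℕ → S.St := fun n => Nat.rec t₀ (fun _ => nx) n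
  have ht : Antitone t := antitone_nat_of_succ_le fun n => h₁ _
  obtain ⟨q', hq'⟩ := Cond.closed (fun n => (t n).p) fun _ _ h => (ht h).1
  have hn : ∀ n, n ≤ (t n).n := fun n => by
    induction n with
    | zero => exact Nat.zero_le _
    | succ n ih => exact Nat.succ_le_of_lt (ih.trans_lt (h₂ (t n)))
  obtain ⟨r, hr, α, β, hne, h⟩ := lim' t ht q' hq' fun k => ⟨k + 1, hn (k + 1)⟩
  refine ⟨r, hr.trans (e₀ ▸ hq' 0), α, β, hne, fun n z hz => h 0 z (St.Has.mono ?_ h₀)⟩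
  obtain ⟨i, hi, e⟩ := hz
  exact ⟨i, hi.trans_le (hN' n), ((hs (le_max_right n N)).2.2 i (hi.trans_le (hN' n))).symm.trans
    (((hs (le_max_left n N)).2.2 i hi).trans e)⟩

theorem lim₁ (s : ℕ → S.St) (hs : Antitone s) : ∃ α r, ∀ n z, (s n).Has z → side z α r := by
  obtain ⟨q, hq⟩ := Cond.closed (fun n => (s n).p) fun _ _ h => (hs h).1
  obtain ⟨r, -, α, β, -, h⟩ := lim s hs q hq
  exact ⟨α, r, fun n z hz => (h n z hz).1⟩

theorem run (s₀ : S.St) (D : ℕ → S.St → Prop) (h : ∀ n, ∀ s ≤ s₀, ∃ t ≤ s, D n t) :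
    ∃ α r, ∀ n, ∃ s, D n s ∧ ∀ z, s.Has z → side z α r := by
  choose nx h₁ h₂ using h
  let t : ℕ → {s // s ≤ s₀} := fun n => Nat.rec ⟨s₀, le_rfl⟩
    (fun n s => ⟨nx n s.1 s.2, (h₁ _ _ _).trans s.2⟩) n
  obtain ⟨α, r, h⟩ := lim₁ (fun n => (t n).1) (antitone_nat_of_succ_le fun n => h₁ _ _ _)
  exact ⟨α, r, fun n => ⟨_, h₂ n (t n).1 (t n).2, h (n + 1)⟩⟩

/-- Countable partitions can be decided. -/
theorem dec_nat (G : ℕ → Cut X) (cov : ∀ α r, ∃ r' ≤ r, ∃ n, (G n).R α r') (s : S.St) :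
    ∃ t ≤ s, ∃ n, t.Has (G n, true) := by
  by_contra h
  push Not at h
  obtain ⟨α, r, H⟩ := run s (fun n t => t.Has (G n, false)) fun n t ht => by
    obtain ⟨t', h₁, h₂ | h₂⟩ := ask t (G n)
    exacts [absurd h₂ (h t' (h₁.trans ht) n), ⟨t', h₁, h₂⟩]
  obtain ⟨r', hr, n, hn⟩ := cov α r
  obtain ⟨t, h₁, h₂⟩ := H n
  exact h₂ _ h₁ r' hr hn

/-- Partitions into `ω₁` pieces can be decided. -/
theorem dec_W' (F : W X → Cut X) (cov : ∀ α r, ∃ r' ≤ r, ∃ η, (F η).R α r')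
    (fn : ∀ α r η η', (F η).R α r → (F η').R α r → η = η') (s : S.St) :
    ∃ t ≤ s, ∃ η, t.Has (F η, true) := by
  classical
  obtain ⟨e, he₁, he₂⟩ := exists_coherent (W X) W.ct
  let G : W X → ℕ → Cut X := fun y n => ⟨fun α r => ∃ η, (F η).R α r ∧ e η y = n,
    fun α p q hq ⟨η, h₁, h₂⟩ => ⟨η, (F η).mono _ _ _ hq h₁, h₂⟩⟩
  have hG : ∀ y (s : S.St), ∃ t ≤ s, ∃ n, t.Has (G y n, true) := fun y => dec_nat (G y)
    fun α r => let ⟨r', hr, η, h⟩ := cov α r; ⟨r', hr, _, η, h, rfl⟩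
  by_contra h
  push Not at h
  by_cases hc : ∃ s₁ ≤ s, ∀ y n m, ∀ t ≤ s₁, ∀ t' ≤ s₁,
      t.Has (G y n, true) → t'.Has (G y m, true) → n = m
  · obtain ⟨s₁, hs₁, hc⟩ := hc
    choose t ht c hc' using fun y => hG y s₁
    obtain ⟨n, hn⟩ : ∃ n, {y | c y = n}.Infinite := by
      by_contra h'
      push Not at h'
      obtain ⟨b, hb⟩ := W.exists_gt (countable_iUnion fun n => (h' n).countable)
      exact lt_irrefl b (hb b (mem_iUnion.2 ⟨_, rfl⟩))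
    let y : ℕ → W X := fun i => (hn.natEmbedding _ i).1
    have hy : ∀ i, c (y i) = n := fun i => (hn.natEmbedding _ i).2
    obtain ⟨b, hb⟩ := W.exists_gt (countable_range y)
    obtain ⟨z, hz⟩ := (W.ct b).exists_eq_range ⟨_, hb _ ⟨0, rfl⟩⟩
    obtain ⟨α, r, H⟩ := run s₁ (fun i t => t.Has (G (y i) n, true) ∧ t.Has (F (z i), false))
      fun i t₁ h₁ => by
        obtain ⟨t₂, h₂, m, hm⟩ := hG (y i) t₁
        obtain rfl : m = n := (hc _ _ _ _ (h₂.trans h₁) _ (ht _) hm (hc' _)).trans (hy i)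
        obtain ⟨t₃, h₃, h₄ | h₄⟩ := ask t₂ (F (z i))
        · exact absurd h₄ (h _ (h₃.trans (h₂.trans (h₁.trans hs₁))) _)
        · exact ⟨t₃, h₃.trans h₂, hm.mono h₃, h₄⟩
    choose v hv hv' using H
    obtain ⟨η, hη, -⟩ := hv' 0 _ (hv 0).1
    have hbη : b ≤ η := not_lt.1 fun h' => by
      obtain ⟨i, rfl⟩ : η ∈ range z := hz ▸ h'
      exact hv' i _ (hv i).2 r le_rfl hη
    refine infinite_range_of_injective (f := y)
      (Subtype.val_injective.comp (hn.natEmbedding _).injective) ((he₁ η n).subset ?_)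
    rintro _ ⟨i, rfl⟩
    obtain ⟨η', h₁, h₂⟩ := hv' i _ (hv i).1
    exact ⟨(hb _ ⟨i, rfl⟩).trans_le hbη, (fn _ _ _ _ h₁ hη ▸ h₂).le⟩
  · push Not at hc
    have hc' : ∀ s₁ : {t // t ≤ s}, ∃ (y : W X) (v : Bool → ℕ) (ch : Bool → {t // t ≤ s}),
        v true ≠ v false ∧ ∀ b, (ch b).1 ≤ s₁.1 ∧ (ch b).1.Has (G y (v b), true) := by
      intro s₁
      obtain ⟨y, n, m, t, ht, t', ht', h₁, h₂, hne⟩ := hc s₁.1 s₁.2
      refine ⟨y, fun b => cond b n m, fun b => cond b ⟨t, ht.trans s₁.2⟩ ⟨t', ht'.trans s₁.2⟩,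
        hne, fun b => ?_⟩
      cases b
      exacts [⟨ht', h₂⟩, ⟨ht, h₁⟩]
    choose y v ch hv hch using hc'
    let nd : List Bool → {t // t ≤ s} := fun l => l.foldr (fun b t => ch t b) ⟨s, le_rfl⟩
    obtain ⟨δ, hδ⟩ := W.exists_gt (countable_range fun l => y (nd l))
    obtain ⟨c, hc⟩ := (countable_codes W.ct he₂ δ).exists_eq_range (range_nonempty _)
    let bb : ℕ → List Bool → Bool := fun n l => decide ((y (nd l), v (nd l) true) ∉ c n)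
    let l : ℕ → List Bool := fun n => Nat.rec [] (fun n l => bb n l :: l) n
    obtain ⟨α, r, H⟩ := lim₁ (fun n => (nd (l n)).1)
      (antitone_nat_of_succ_le fun n => (hch _ _).1)
    have H' : ∀ n, ∃ η, (F η).R α r ∧ e η (y (nd (l n))) = v (nd (l n)) (bb n (l n)) :=
      fun n => H (n + 1) _ (hch _ _).2
    obtain ⟨η, hη, -⟩ := H' 0
    obtain ⟨n, hn⟩ : _ ∈ range c := hc ▸ mem_range_self η
    obtain ⟨η', h₁, h₂⟩ := H' n
    obtain rfl := fn _ _ _ _ h₁ hη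
    have h₃ : y (nd (l n)) < δ := hδ _ ⟨_, rfl⟩
    by_cases h₄ : (y (nd (l n)), v (nd (l n)) true) ∈ c n
    · have : bb n (l n) = false := by simp [bb, h₄]
      rw [this] at h₂
      rw [hn] at h₄
      exact hv _ (h₄.2.symm.trans h₂)
    · have : bb n (l n) = true := by simp [bb, h₄]
      rw [this] at h₂
      exact h₄ (hn ▸ ⟨h₃, h₂⟩)

theorem dec_W (F : W X → Cut X) (cov : ∀ α r, ∃ r' ≤ r, ∃ η, (F η).R α r') (s : S.St) :
    ∃ t ≤ s, ∃ η, ∃ C : Cut X, t.Has (C, true) ∧ ∀ α r, C.R α r → (F η).R α r := by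
  obtain ⟨t, ht, η, h⟩ := dec_W' (fun η => ⟨fun α r => (F η).R α r ∧
      ∀ η' < η, ∀ r' ≤ r, ¬ (F η').R α r', fun α p q hq h =>
        ⟨(F η).mono _ _ _ hq h.1, fun η' h' r hr => h.2 η' h' r (hr.trans hq)⟩⟩) (by
      intro α r
      obtain ⟨r₀, h₀, η₀, h₁⟩ := cov α r
      obtain ⟨η, ⟨r', hr, h⟩, hmin⟩ := wellFounded_lt.has_min {η | ∃ r' ≤ r, (F η).R α r'}
        ⟨η₀, r₀, h₀, h₁⟩
      exact ⟨r', hr, η, h, fun η' h' r'' hr' h'' => hmin η' ⟨r'', hr'.trans hr, h''⟩ h'⟩) (by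
      intro α r η η' h h'
      rcases lt_trichotomy η η' with e | e | e
      exacts [absurd h.1 (h'.2 _ e r le_rfl), e, absurd h'.1 (h.2 _ e r le_rfl)]) s
  exact ⟨t, ht, η, _, h, fun _ _ h => h.1⟩

theorem avoid (s : S.St) (α₀ : X) : ∃ t ≤ s, ∃ η < t.p.δ,
    ∀ α r, (∀ z, t.Has z → side z α r) → r.Diff α₀ α η := by
  obtain ⟨t₁, h₁, h₂ | h₂⟩ := ask s ⟨fun α _ => α = α₀, fun _ _ _ _ h => h⟩
  · obtain ⟨r, -, α, β, hne, h⟩ := lim (fun _ => t₁) antitone_const t₁.p fun _ => le_rfl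
    exact absurd ((h 0 _ h₂).1.trans (h 0 _ h₂).2.symm) hne
  obtain ⟨t₂, h₃, η, C, h₄, h₅⟩ := dec_W (fun η => ⟨fun α r => α = α₀ ∨ r.Diff α₀ α η,
      fun α p q hq h => h.imp id fun h => h.mono hq⟩) (by
      intro α r
      by_cases e : α = α₀
      · exact ⟨r, le_rfl, w0 X, Or.inl e⟩
      · obtain ⟨q, hq, η, h⟩ := r.split (Ne.symm e)
        exact ⟨q, hq, η, Or.inr h⟩) t₁
  obtain ⟨q, hq, hη⟩ := t₂.p.raise η
  obtain ⟨t₃, h₆, rfl⟩ := lower t₂ hq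
  exact ⟨t₃, h₆.trans (h₃.trans h₁), η, hη, fun α r h =>
    (h₅ α r (h _ (h₄.mono h₆))).resolve_left (h _ (h₂.mono (h₆.trans h₃)) r le_rfl)⟩

/-- Bookkeeping. -/
def bk {A B : Type*} (a₀ : A) (nx : A → B → A) (en : A → ℕ → B) : ℕ → A
  | 0 => a₀
  | n + 1 => nx (bk a₀ nx en n) (en (bk a₀ nx en n.unpair.1) n.unpair.2)
decreasing_by
  · exact Nat.lt_succ_self _
  · exact Nat.lt_succ_of_le (Nat.unpair_left_le _)

theorem false (S : Strat X) : False := by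
  choose nx h₁ η h₂ h₃ using avoid (S := S)
  choose en hen using fun s : S.St => s.p.a_ct.exists_eq_range ⟨_, s.p.a_ne⟩
  let s : ℕ → S.St := bk ⟨S.p₀, 0, fun _ => (⟨fun _ _ => True, fun _ _ _ _ h => h⟩, true), le_rfl,
    fun _ h => absurd h (Nat.not_lt_zero _)⟩ nx en
  have hs : ∀ n, s (n + 1) = nx (s n) (en (s n.unpair.1) n.unpair.2) := fun n => by
    simp only [s]; rw [bk]
  have ha : Antitone s := antitone_nat_of_succ_le fun n => hs n ▸ h₁ _ _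
  obtain ⟨q, hq, hq'⟩ := Cond.closed' (fun n => (s n).p) fun _ _ h => (ha h).1
  obtain ⟨r, hr, α, β, -, h⟩ := lim s ha q hq
  obtain ⟨r', hr', hα⟩ := r.add_idx α
  obtain ⟨α₀, hα₀, e⟩ := (hr'.trans hr).k α hα
  obtain ⟨i, hi⟩ := hq' α₀ hα₀
  obtain ⟨j, rfl⟩ : α₀ ∈ range (en (s i)) := hen (s i) ▸ hi
  have e₁ := hs (Nat.pair i j)
  rw [Nat.unpair_pair] at e₁
  have h₄ := (h₃ _ _ α r fun z hz => (h _ z (e₁ ▸ hz)).1).mono hr'
  have h₅ := (h₂ (s (Nat.pair i j)) (en (s i) j)).trans_le (e₁ ▸ (hq (Nat.pair i j + 1)).δ)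
  exact h₄.2.2.2 (((hr'.trans hr).f _ hα₀ _ h₅).trans (e _ h₅).symm)

end Strat

end Pool.Agent.MP_4faeaf_lc

end
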