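import Pool.Agent.MP_c6cf52_lc.Tools
import Pool.Agent.MP_4faeaf_lc.Defs
import Pool.Agent.Mg.F4faeaf.G3fa2fc

section

namespace Pool.Agent.MP_4faeaf_lc

open Pool.Agent.MP_c6cf52_lc Pool.Agent.MP_c6cf52_lc.Name

universe u v

section Rank

variable {P : Type u} [Preorder P]

/-- The condition forces that the rank is at most `ξ`. -/
def Rk : Name P → P → Ordinal.{u} → Prop
  | .mk _ A B, p, ξ => ∀ i, ∀ q ≤ p, q ≤ B i → ∃ r ≤ q, ∃ ζ < ξ, Rk (A i) r ζ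

theorem rk_def (τ : Name P) (p : P) (ξ : Ordinal.{u}) :
    Rk τ p ξ ↔ ∀ i, ∀ q ≤ p, q ≤ τ.B i → ∃ r ≤ q, ∃ ζ < ξ, Rk (τ.A i) r ζ := by
  cases τ; rfl

theorem Rk.mono {τ : Name P} {p q : P} {ξ : Ordinal.{u}} (h : Rk τ p ξ) (hq : q ≤ p) :
    Rk τ q ξ := by
  rw [rk_def] at h ⊢
  exact fun i r hr => h i r (hr.trans hq)

theorem exists_rk (τ : Name P) : ∃ ξ, ∀ p, Rk τ p ξ := by
  induction τ using Name.ind with
  | h τ ih =>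
    choose ζ hζ using ih
    refine ⟨⨆ i, Order.succ (ζ i), fun p => (rk_def _ _ _).2 fun i q _ _ =>
      ⟨q, le_rfl, ζ i, ?_, hζ i q⟩⟩
    exact Order.lt_succ (ζ i) |>.trans_le (Ordinal.le_iSup (fun i => Order.succ (ζ i)) i)

theorem Rk.of_feq : ∀ {σ τ : Name P} {p : P} {ξ : Ordinal.{u}},
    FEq σ τ p → Rk τ p ξ → Rk σ p ξ := by
  intro σ
  induction σ using Name.ind with
  | h σ ih =>
    intro τ p ξ e h
    rw [rk_def] at h ⊢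
    intro i q hq hi
    obtain ⟨r, hr, j, hj, e'⟩ := ((feq_def _ _ _).1 e).1 i q hq hi
    obtain ⟨s, hs, ζ, hζ, h'⟩ := h j r (hr.trans hq) hj
    exact ⟨s, hs.trans hr, ζ, hζ, ih i (e'.mono hs) h'⟩

/-- The condition decides the rank. -/
def Dec (τ : Name P) (p : P) (ξ : Ordinal.{u}) : Prop :=
  Rk τ p ξ ∧ ∀ r ≤ p, ∀ ζ < ξ, ¬ Rk τ r ζ

theorem Dec.mono {τ : Name P} {p q : P} {ξ : Ordinal.{u}} (h : Dec τ p ξ) (hq : q ≤ p) :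
    Dec τ q ξ := ⟨h.1.mono hq, fun r hr => h.2 r (hr.trans hq)⟩

theorem dec_dense (τ : Name P) (p : P) : ∃ q ≤ p, ∃ ξ, Dec τ q ξ := by
  obtain ⟨ξ₀, h₀⟩ := exists_rk τ
  obtain ⟨ξ, ⟨q, hq, h⟩, hmin⟩ := wellFounded_lt.has_min {ξ | ∃ q ≤ p, Rk τ q ξ}
    ⟨ξ₀, p, le_rfl, h₀ p⟩
  exact ⟨q, hq, ξ, h, fun r hr ζ hζ h' => hmin ζ ⟨r, hr.trans hq, h'⟩ hζ⟩

theorem dec_lt {σ τ : Name P} {p : P} {ζ ξ : Ordinal.{u}} (h : FMem σ τ p) (h₁ : Dec σ p ζ)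
    (h₂ : Dec τ p ξ) : ζ < ξ := by
  obtain ⟨r, hr, j, hj, e⟩ := h p le_rfl
  obtain ⟨s, hs, ζ', hζ, h'⟩ := (rk_def _ _ _).1 h₂.1 j r hr hj
  exact (not_lt.1 fun h'' => h₁.2 s (hs.trans hr) ζ' h'' (Rk.of_feq (e.mono hs) h')).trans_lt hζ

theorem feq_refl (τ : Name P) : ∀ p, FEq τ τ p := by
  induction τ using Name.ind with
  | h τ ih =>
    exact fun p => (feq_def _ _ _).2 ⟨fun i q _ h => ⟨q, le_rfl, i, h, ih i q⟩,
      fun i q _ h => ⟨q, le_rfl, i, h, ih i q⟩⟩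

end Rank

theorem exists_generic' {P : Type u} [Preorder P] {α : Type v} [Inhabited α] {ι : Type*}
    [Countable ι] [Nonempty ι] (D : ι → List α → P → α → Prop)
    (hD : ∀ i l p, ∃ q ≤ p, ∃ a, D i l q a) (p₀ : P) :
    ∃ (N : Set α) (s : ℕ → P), N.Countable ∧ Antitone s ∧
      ∀ i l, (∀ x ∈ l, x ∈ N) → ∃ n, ∃ a ∈ N, D i l (s n) a := by
  classical
  obtain ⟨e, he⟩ := exists_surjective_nat (ι × List ℕ)
  choose q hq a ha using hD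
  let step : ℕ → P × (ℕ → α) → P × (ℕ → α) := fun n st =>
    (q (e n.unpair.1).1 ((e n.unpair.1).2.map st.2) st.1,
      Function.update st.2 n (a (e n.unpair.1).1 ((e n.unpair.1).2.map st.2) st.1))
  let S : ℕ → P × (ℕ → α) := fun n => Nat.rec (p₀, fun _ => default) step n
  have hS : ∀ n, S (n + 1) = step n (S n) := fun n => rfl
  let τ : ℕ → α := fun n => (S (n + 1)).2 n
  have stable : ∀ k n, k < n → (S n).2 k = τ k := by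
    intro k n hkn
    induction n, hkn using Nat.le_induction with
    | base => rfl
    | succ n hn ih =>
      rw [hS]
      simp only [step]
      rw [Function.update_of_ne (by omega)]
      exact ih
  refine ⟨Set.range τ, fun n => (S n).1, Set.countable_range _,
    antitone_nat_of_succ_le fun n => ?_, ?_⟩
  · rw [hS]; exact hq _ _ _
  · intro i l hl
    obtain ⟨ks, rfl⟩ : ∃ ks : List ℕ, l = ks.map τ := by
      induction l with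
      | nil => exact ⟨[], rfl⟩
      | cons x l ih =>
        obtain ⟨ks, rfl⟩ := ih fun y hy => hl y (List.mem_cons_of_mem _ hy)
        obtain ⟨k, rfl⟩ := hl x List.mem_cons_self
        exact ⟨k :: ks, rfl⟩
    obtain ⟨m, hm⟩ := he (i, ks)
    let n := Nat.pair m (ks.sum + 1)
    have hn : ks.map (S n).2 = ks.map τ := by
      refine List.map_congr_left fun k hk => stable k n ?_
      have h₁ := List.single_le_sum (l := ks) (fun _ _ => Nat.zero_le _) k hk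
      have h₂ := Nat.right_le_pair m (ks.sum + 1)
      omega
    refine ⟨n + 1, τ n, ⟨n, rfl⟩, ?_⟩
    have h := ha i (ks.map τ) (S n).1
    have e1 : n.unpair.1 = m := by simp [n]
    have e2 : (S (n + 1)).1 = q i (ks.map τ) (S n).1 := by
      rw [hS]; simp only [step, e1, hm, hn]
    have e3 : τ n = a i (ks.map τ) (S n).1 := by
      show (S (n + 1)).2 n = _
      rw [hS]; simp only [step, e1, hm, hn, Function.update_self]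
    show D i (ks.map τ) (S (n + 1)).1 (τ n)
    rw [e2, e3]
    exact h

theorem exists_gen' {P : Type u} [Preorder P] [OrderTop P] (C : Set (Name P))
    (hC : C.Countable) (F : Name P → Name P) :
    ∃ g : Gen P, g.N.Countable ∧ C ⊆ g.N ∧ ∀ σ ∈ g.N, F σ ∈ g.N := by
  have := hC.to_subtype
  let D : ((ℕ × Fml × ℕ) ⊕ C) ⊕ Unit → List (Name P) → P → Name P → Prop := fun i l q ρ =>
    match i with
    | .inl (.inl i) => Name.basic i.1 i.2.1 i.2.2 l q ρ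
    | .inl (.inr c) => ρ = c.1
    | .inr _ => ρ = F (env emp l 0)
  have : Nonempty (((ℕ × Fml × ℕ) ⊕ C) ⊕ Unit) := ⟨.inr ()⟩
  obtain ⟨N, s, hN, hs, h⟩ := exists_generic' D (by
    rintro ((i | c) | c) l p
    · exact Name.basic_dense _ _ _ _ _
    · exact ⟨p, le_rfl, _, rfl⟩
    · exact ⟨p, le_rfl, _, rfl⟩) ⊤
  refine ⟨⟨N, {q | ∃ n, s n ≤ q}, ?_, ?_, ⟨0, le_top⟩, ?_⟩, hN, ?_, ?_⟩
  · rintro p q ⟨n, hn⟩ hpq
    exact ⟨n, hn.trans hpq⟩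
  · rintro p q ⟨n, hn⟩ ⟨m, hm⟩
    exact ⟨s (max n m), ⟨_, le_rfl⟩, (hs (le_max_left _ _)).trans hn,
      (hs (le_max_right _ _)).trans hm⟩
  · intro t φ k l hl
    obtain ⟨n, a, ha, h⟩ := h (.inl (.inl (t, φ, k))) l hl
    exact ⟨s n, ⟨n, le_rfl⟩, a, ha, h⟩
  · intro c hc
    obtain ⟨n, a, ha, h⟩ := h (.inl (.inr ⟨c, hc⟩)) [] (by simp)
    exact (show a = c from h) ▸ ha
  · intro σ hσ
    obtain ⟨n, a, ha, h⟩ := h (.inr ()) [σ] (by simpa using hσ)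
    exact (show a = F σ from h) ▸ ha

theorem countable_M {P : Type u} [Preorder P] [OrderTop P] {g : Gen P} (h : g.N.Countable) :
    Countable g.M := by
  have := h.to_subtype
  refine Function.Surjective.countable (f := fun τ : g.N => g.v τ.1) fun x => ?_
  obtain ⟨τ, hτ, rfl⟩ := Gen.exists_v x
  exact ⟨⟨τ, hτ⟩, rfl⟩

theorem lower_of_dir {P : Type u} [Preorder P] [OrderTop P]
    (cl : ∀ s : ℕ → P, Antitone s → ∃ q, ∀ n, q ≤ s n) (g : Gen P) (r : ℕ → P)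
    (hr : ∀ n, r n ∈ g.G) : ∃ q, ∀ n, q ≤ r n := by
  have h : ∀ n (p : g.G), ∃ q : g.G, q.1 ≤ p.1 ∧ q.1 ≤ r n := fun n p =>
    let ⟨q, hq, h⟩ := g.dir p.2 (hr n)
    ⟨⟨q, hq⟩, h⟩
  choose nx h₁ h₂ using h
  let s : ℕ → g.G := fun n => Nat.rec ⟨⊤, g.top⟩ nx n
  obtain ⟨q, hq⟩ := cl (fun n => (s n).1) (antitone_nat_of_succ_le fun n => h₁ _ _)
  exact ⟨q, fun n => (hq (n + 1)).trans (h₂ _ _)⟩

end Pool.Agent.MP_4faeaf_lc

end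

section

namespace Pool.Agent.MP_4faeaf_lc

open Pool.Agent.MP_c6cf52_lc Pool.Agent.MP_c6cf52_lc.Name Pool.Agent.MP_c6cf52_lc.Gen Set Cardinal

universe u

variable {X : Type u} [LinearOrder X] [Ms X]

theorem wfX : WellFounded (fun a b : X => a < b) := wellFounded_lt

omit [Ms X] in
theorem triX (a b : X) : a < b ∨ a = b ∨ b < a := lt_trichotomy a b

noncomputable def o (x : X) : Name (Cond X) := ordN wfX x

noncomputable def sN (s : Set X) : Name (Cond X) := setN wfX s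

variable (X) in
noncomputable def nN (k : ℕ) : Name (Cond X) := ordN natWf ⟨k⟩

variable (X) in
noncomputable def omN : Name (Cond X) := setN natWf univ

variable {g : Gen (Cond X)}

theorem o_eq (x : X) : o x = sN (Iio x) := ordN_eq wfX x

theorem E_sN {s : Set X} (h : sN s ∈ g.N) {x : g.M} :
    g.E x (g.v (sN s)) ↔ ∃ y ∈ s, o y ∈ g.N ∧ g.v (o y) = x := E_setN wfX h

theorem E_o {a : X} (h : o a ∈ g.N) {x : g.M} :
    g.E x (g.v (o a)) ↔ ∃ y, y < a ∧ o y ∈ g.N ∧ g.v (o y) = x := E_ordN wfX h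

theorem o_lt {a b : X} (ha : o a ∈ g.N) (hb : o b ∈ g.N) :
    g.E (g.v (o a)) (g.v (o b)) ↔ a < b := ord_lt_iff wfX triX ha hb

theorem o_inj {a b : X} (ha : o a ∈ g.N) (hb : o b ∈ g.N) (h : g.v (o a) = g.v (o b)) : a = b :=
  ord_inj wfX triX ha hb h

theorem o_mem_sN {s : Set X} {a : X} (ha : o a ∈ g.N) (hs : sN s ∈ g.N) :
    g.E (g.v (o a)) (g.v (sN s)) ↔ a ∈ s := ord_mem_setN_iff wfX triX ha hs

theorem o_mem {a b : X} (hb : o b ∈ g.N) (h : b < w1 X) (hab : a < b) : o a ∈ g.N :=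
  ordN_mem wfX hb (ct_of_lt h) hab

theorem isOrd_o {a : X} (h : o a ∈ g.N) : IsOrd g.E (g.v (o a)) := by
  rw [o_eq] at h ⊢
  exact isOrd_setN wfX triX h fun x y h₁ h₂ => lt_trans h₁ h₂

theorem isOrd_k (h : sN univ ∈ g.N) : IsOrd g.E (g.v (sN univ)) :=
  isOrd_setN wfX triX h fun _ _ _ _ => trivial

theorem nN_mem (k : ℕ) : nN X k ∈ g.N := nat_mem _

theorem omN_mem : omN X ∈ g.N := g.omega_mem

theorem nN_inj {j k : ℕ} (h : g.v (nN X j) = g.v (nN X k)) : j = k :=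
  congrArg ULift.down (ord_inj natWf natTri (nN_mem j) (nN_mem k) h)

theorem nN_lt {j k : ℕ} : g.E (g.v (nN X j)) (g.v (nN X k)) ↔ j < k :=
  ord_lt_iff natWf natTri (nN_mem j) (nN_mem k)

theorem E_nN {k : ℕ} {x : g.M} : g.E x (g.v (nN X k)) ↔ ∃ j < k, g.v (nN X j) = x := by
  unfold nN
  rw [E_ordN natWf (nat_mem _)]
  exact ⟨fun ⟨y, h₁, _, h₂⟩ => ⟨y.down, h₁, h₂⟩, fun ⟨j, h₁, h₂⟩ => ⟨⟨j⟩, h₁, nat_mem _, h₂⟩⟩

theorem E_om {x : g.M} : g.E x (g.v (omN X)) ↔ ∃ j, g.v (nN X j) = x := by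
  unfold omN
  rw [E_setN natWf g.omega_mem]
  exact ⟨fun ⟨y, _, _, h₂⟩ => ⟨y.down, h₂⟩, fun ⟨j, h₂⟩ => ⟨⟨j⟩, trivial, nat_mem _, h₂⟩⟩

theorem nN_om (k : ℕ) : g.E (g.v (nN X k)) (g.v (omN X)) := E_om.2 ⟨k, rfl⟩

theorem isOmega_om : IsOmega g.E (g.v (omN X)) := by
  refine ⟨isOrd_setN natWf natTri g.omega_mem fun _ _ _ _ => trivial, ⟨_, nN_om 0⟩,
    fun x hx => ?_, fun x hx ⟨y, hy⟩ => ?_⟩
  · obtain ⟨n, rfl⟩ := E_om.1 hx
    exact ⟨_, nN_om (n + 1), nN_lt.2 (Nat.lt_succ_self n)⟩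
  · obtain ⟨n, rfl⟩ := E_om.1 hx
    obtain ⟨m, hm, -⟩ := E_nN.1 hy
    refine ⟨g.v (nN X (n - 1)), nN_lt.2 (by omega), fun z hz => ?_⟩
    obtain ⟨k, hk, rfl⟩ := E_nN.1 hz
    rw [nN_lt]
    omega

theorem exists_om : ∃ (i : ℕ → X) (w : X), (∀ n y, y < i n ↔ ∃ m, i m = y ∧ m < n) ∧
    (∀ y, y < w ↔ ∃ m, i m = y) ∧ w < w1 X := by
  rcases InitialSeg.total (fun a b : ℕ => a < b) (fun a b : X => a < b) with f | f
  · obtain ⟨x, hx⟩ : ∃ x, x ∉ range f := by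
      by_contra h
      push Not at h
      exact w1_unc (X := X) ((countable_range f).mono fun x _ => h x)
    obtain ⟨w, hw, hmin⟩ := wellFounded_lt.has_min {x | x ∉ range f} ⟨x, hx⟩
    have e : ∀ y, y < w ↔ ∃ m, f m = y := by
      refine fun y => ⟨fun h => by_contra fun h' => hmin y h' h, ?_⟩
      rintro ⟨m, rfl⟩
      rcases lt_trichotomy (f m) w with h | h | h
      exacts [h, absurd ⟨m, h⟩ hw, absurd (f.mem_range_of_rel h) hw]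
    refine ⟨f, w, fun n y => f.exists_eq_iff_rel, e, not_le.1 fun h => w1_unc (X := X) ?_⟩
    exact (countable_range f).mono fun y hy => (e y).1 (lt_of_lt_of_le hy h)
  · have : Countable X := f.injective.countable
    exact absurd (to_countable _) (w1_unc (X := X))

theorem om_mem_w1 (hk : o (w1 X) ∈ g.N) : g.E (g.v (omN X)) (g.v (o (w1 X))) := by
  obtain ⟨i, w, h₁, h₂, h₃⟩ := exists_om (X := X)
  refine dens (UDef.mem 0 1) (l2 omN_mem hk) fun p _ =>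
    ⟨p, le_rfl, {o w}, countable_singleton _, fun g' _ hC hl => ?_⟩
  have hw : o w ∈ g'.N := hC rfl
  have hm : ∀ n, o (i n) ∈ g'.N := fun n => o_mem hw h₃ ((h₂ _).2 ⟨n, rfl⟩)
  have e : ∀ n, g'.v (nN X n) = g'.v (o (i n)) := by
    intro n
    induction n using Nat.strong_induction_on with
    | h n ih =>
      refine ext fun x => ?_
      rw [E_nN, E_o (hm n)]
      constructor
      · rintro ⟨j, hj, rfl⟩
        exact ⟨i j, (h₁ _ _).2 ⟨j, rfl, hj⟩, hm j, (ih j hj).symm⟩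
      · rintro ⟨y, hy, -, rfl⟩
        obtain ⟨j, rfl, hj⟩ := (h₁ _ _).1 hy
        exact ⟨j, hj, ih j hj⟩
  have e' : g'.v (omN X) = g'.v (o w) := by
    refine ext fun x => ?_
    rw [E_om, E_o hw]
    constructor
    · rintro ⟨j, rfl⟩
      exact ⟨i j, (h₂ _).2 ⟨j, rfl⟩, hm j, (e j).symm⟩
    · rintro ⟨y, hy, -, rfl⟩
      obtain ⟨j, rfl⟩ := (h₂ _).1 hy
      exact ⟨j, e j⟩
  change g'.E (g'.v (omN X)) (g'.v (o (w1 X)))
  rw [e']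
  exact (o_lt hw (hl _ (by simp))).2 h₃

theorem no_card_om (hk : o (w1 X) ∈ g.N) (m : g.M) (hm : IsCard g.E m)
    (hom : g.E (g.v (omN X)) m) : ¬ g.E m (g.v (o (w1 X))) := by
  intro h
  obtain ⟨y, hy₀, hy, rfl⟩ := (E_o hk).1 h
  refine hm.2 _ hom ?_
  have := (ct_of_lt hy₀).to_subtype
  obtain ⟨e, he⟩ := exists_injective_nat (Iio y)
  let τ : Name (Cond X) := relN (fun z : Iio y => o z.1) (fun z => nN X (e z)) (fun _ => ⊤)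
  refine dens (Ψ := fun _ E w => ∃ f, IsInj E f (w 0) (w 1)) (UDef.ex (UDef.isInj _ _ _))
    (l2 hy omN_mem) fun p _ => ⟨p, le_rfl, {τ}, countable_singleton _, fun g' _ hC hl => ?_⟩
  have hτ : τ ∈ g'.N := hC rfl
  have hy' : o y ∈ g'.N := hl _ (by simp)
  refine ⟨g'.v τ, ⟨fun p hp => ?_, fun a ha => ?_⟩, fun a a' b h₁ h₂ => ?_⟩
  · obtain ⟨z, -, h₁, h₂, rfl⟩ := (E_relN hτ).1 hp
    exact ⟨_, _, (o_lt h₁ hy').2 z.2, nN_om _, isPair_pr _ _⟩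
  · obtain ⟨z, hz, hzN, rfl⟩ := (E_o hy').1 ha
    refine ⟨_, (app_relN hτ).2 ⟨⟨z, hz⟩, g'.top, hzN, nN_mem _, rfl, rfl⟩, fun b hb => ?_⟩
    obtain ⟨z', -, h₁, -, e₁, rfl⟩ := (app_relN hτ).1 hb
    obtain rfl : z' = ⟨z, hz⟩ := Subtype.ext (o_inj h₁ hzN e₁.symm)
    rfl
  · obtain ⟨z, -, -, -, rfl, rfl⟩ := (app_relN hτ).1 h₁
    obtain ⟨z', -, -, -, rfl, e₂⟩ := (app_relN hτ).1 h₂
    rw [he (nN_inj e₂)]

theorem isCard_w1 (hk : o (w1 X) ∈ g.N) : IsCard g.E (g.v (o (w1 X))) := by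
  refine ⟨isOrd_o hk, fun a ha ⟨f, hf⟩ => ?_⟩
  obtain ⟨y, hy, hyN, rfl⟩ := (E_o hk).1 ha
  obtain ⟨σ, hσ, rfl⟩ := exists_v f
  refine dens (Ψ := fun _ E w => ¬ IsInj E (w 0) (w 1) (w 2)) (UDef.isInj _ _ _).not
    (l3 hσ hk hyN) (fun p _ => ?_) hf
  have := (ct_of_lt hy).to_subtype
  obtain ⟨q, hq, h, H⟩ := decide_app Cond.closed (J := Iio y) (K := W X) σ
    (fun _ k => o k.1) (fun j _ => o j.1) p
  obtain ⟨x, hx⟩ := W.exists_gt (countable_range h)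
  refine ⟨q, hq, insert (o x.1) (range fun j => o (h j).1), (countable_range _).insert _,
    fun g' hq' hC hl (hf : IsInj g'.E (g'.v σ) (g'.v (o (w1 X))) (g'.v (o y))) => ?_⟩
  have hxN : o x.1 ∈ g'.N := hC (mem_insert _ _)
  obtain ⟨b, hb, hab⟩ := fun_ex hf.1 ((o_lt hxN (hl _ (by simp))).2 x.2)
  obtain ⟨z, hz, hzN, rfl⟩ := (E_o (hl _ (by simp))).1 hb
  have hh : o (h ⟨z, hz⟩).1 ∈ g'.N := hC (Or.inr ⟨_, rfl⟩)
  have := H g' hq' (hl _ (by simp)) ⟨z, hz⟩ x hxN hzN hab hh hzN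
  exact (hx _ ⟨_, rfl⟩).ne (Subtype.ext (o_inj hh hxN (hf.2 _ _ _ this hab)))

/-! ### The collapse -/

noncomputable def injN {J : Type u} (A : J → Name (Cond X)) (γ : X) (e : J → X) : Name (Cond X) :=
  relN (fun z : {z : J × W X × Cond X // (γ, e z.1, z.2.1) ∈ z.2.2.c} => A z.1.1)
    (fun z => o z.1.2.1.1) (fun z => z.1.2.2)

theorem app_injN {J : Type u} {A : J → Name (Cond X)} {γ : X} {e : J → X} (h : injN A γ e ∈ g.N)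
    {s t : g.M} : App g.E (g.v (injN A γ e)) s t ↔ ∃ j ξ p, p ∈ g.G ∧ (γ, e j, ξ) ∈ p.c ∧
      A j ∈ g.N ∧ o ξ.1 ∈ g.N ∧ s = g.v (A j) ∧ t = g.v (o ξ.1) := by
  unfold injN at h ⊢
  rw [app_relN h]
  exact ⟨fun ⟨⟨⟨j, x, p⟩, h₀⟩, h₁, h₂⟩ => ⟨j, x, p, h₁, h₀, h₂⟩,
    fun ⟨j, x, p, h₁, h₀, h₂⟩ => ⟨⟨⟨j, x, p⟩, h₀⟩, h₁, h₂⟩⟩

theorem c_compat {p q : Cond X} (hp : p ∈ g.G) (hq : q ∈ g.G) {γ x y : X} {ξ ζ : W X}
    (ha : (γ, x, ξ) ∈ p.c) (hb : (γ, y, ζ) ∈ q.c) : x = y ↔ ξ = ζ := by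
  obtain ⟨r, -, h₁, h₂⟩ := g.dir hp hq
  exact r.c_fun _ (h₁.c ha) _ (h₂.c hb) rfl

theorem isInj_injN {J : Type u} {A : J → Name (Cond X)} {γ : X} {e : J → X}
    (he : Function.Injective e) (hγ : ∀ j, e j < γ) (h : injN A γ e ∈ g.N)
    (hA : fam A ∈ g.N) (hk : o (w1 X) ∈ g.N)
    (inj : ∀ i j, A i ∈ g.N → A j ∈ g.N → g.v (A i) = g.v (A j) → i = j) :
    IsInj g.E (g.v (injN A γ e)) (g.v (fam A)) (g.v (o (w1 X))) := by
  refine ⟨⟨fun p hp => ?_, fun a ha => ?_⟩, fun a a' b h₁ h₂ => ?_⟩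
  · obtain ⟨⟨⟨j, x, q⟩, h₀⟩, -, h₂, h₃, rfl⟩ := (E_relN h).1 hp
    exact ⟨_, _, (E_fam hA).2 ⟨j, h₂, rfl⟩, (o_lt h₃ hk).2 x.2, isPair_pr _ _⟩
  · obtain ⟨j, hj, rfl⟩ := (E_fam hA).1 ha
    have : ∃ b, App g.E (g.v (injN A γ e)) (g.v (A j)) b := by
      refine dens (Ψ := fun _ E w => ∃ b, App E (w 0) (w 1) b) (UDef.ex (UDef.app _ _ _))
        (l2 h hj) fun p _ => ?_
      obtain ⟨q, hq, x, hx⟩ := p.add_dom (hγ j)
      refine ⟨q, hq, {o x.1}, countable_singleton _, fun g' hq' hC hl => ?_⟩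
      exact ⟨_, (app_injN (hl _ (by simp))).2
        ⟨j, x, q, hq', hx, hl _ (by simp), hC rfl, rfl, rfl⟩⟩
    obtain ⟨b, hb⟩ := this
    refine ⟨b, hb, fun b' hb' => ?_⟩
    obtain ⟨i, x, p, hp, hx, hi, -, e₁, rfl⟩ := (app_injN h).1 hb
    obtain ⟨i', x', p', hp', hx', hi', -, e₂, rfl⟩ := (app_injN h).1 hb'
    obtain rfl := inj _ _ hi hi' (e₁.symm.trans e₂)
    rw [show x = x' from (c_compat hp hp' hx hx').1 rfl]
  · obtain ⟨i, x, p, hp, hx, -, ho, rfl, rfl⟩ := (app_injN h).1 h₁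
    obtain ⟨i', x', p', hp', hx', -, ho', rfl, e₂⟩ := (app_injN h).1 h₂
    rw [he ((c_compat hp hp' hx hx').2 (Subtype.ext (o_inj ho ho' e₂)))]

theorem no_card_between (hk : o (w1 X) ∈ g.N) (hl : sN univ ∈ g.N) (m : g.M) (hm : IsCard g.E m)
    (hkm : g.E (g.v (o (w1 X))) m) : ¬ g.E m (g.v (sN univ)) := by
  intro h
  obtain ⟨x, -, hx, rfl⟩ := (E_sN hl).1 h
  refine hm.2 _ hkm ?_
  refine dens (Ψ := fun _ E w => ∃ f, IsInj E f (w 0) (w 1)) (UDef.ex (UDef.isInj _ _ _))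
    (l2 hx hk) fun p _ => ⟨p, le_rfl, {injN (fun y : Iio x => o y.1) x Subtype.val},
      countable_singleton _, fun g' _ hC hl => ?_⟩
  have hx' : o x ∈ g'.N := hl _ (by simp)
  have e : o x = fam (fun y : Iio x => o y.1) := o_eq x
  have := isInj_injN (g := g') Subtype.val_injective (fun y => y.2) (hC rfl) (e ▸ hx')
    (hl _ (by simp)) fun i j hi hj h => Subtype.ext (o_inj hi hj h)
  rw [← e] at this
  exact ⟨_, this⟩

theorem udef_sub (i j : ℕ) : UDef.{u} (fun _ E w => Sub E (w i) (w j)) :=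
  UDef.all ((UDef.mem _ _).imp (UDef.mem _ _))

variable (X) in
noncomputable def realsN : Name (Cond X) := fam fun A : Set (ULift.{u} ℕ) => setN natWf A

theorem E_reals (h : realsN X ∈ g.N) (x : g.M) :
    g.E x (g.v (realsN X)) ↔ Sub g.E x (g.v (omN X)) := by
  constructor
  · intro hx y hy
    obtain ⟨A, hA, rfl⟩ := (E_fam h).1 hx
    obtain ⟨n, -, -, rfl⟩ := (E_setN natWf hA).1 hy
    exact nN_om n.down
  · intro hx
    obtain ⟨σ, hσ, rfl⟩ := exists_v x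
    refine dens (Ψ := fun _ E w => Sub E (w 0) (w 1) → E (w 0) (w 2))
      ((udef_sub _ _).imp (UDef.mem _ _)) (l3 hσ omN_mem h) (fun p _ => ?_) hx
    obtain ⟨q, hq, H⟩ := baire Cond.closed
      (fun (n : ℕ) q => FMem (nN X n) σ q ∨ ∀ r ≤ q, ¬ FMem (nN X n) σ r)
      (fun n p => by
        by_cases h : FMem (nN X n) σ p
        · exact ⟨p, le_rfl, Or.inl h⟩
        · obtain ⟨r, hr, h⟩ := exists_not_fmem h
          exact ⟨r, hr, Or.inr h⟩)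
      (fun n p q hq h => h.imp (·.mono hq) fun h r hr => h r (hr.trans hq)) p
    let A : Set (ULift.{u} ℕ) := {n | FMem (nN X n.down) σ q}
    refine ⟨q, hq, {setN natWf A}, countable_singleton _,
      fun g' hq' hC hl (hx : Sub g'.E (g'.v σ) (g'.v (omN X))) => ?_⟩
    have hA : setN natWf A ∈ g'.N := hC rfl
    have hσ' : σ ∈ g'.N := hl _ (by simp)
    refine (E_fam (hl (realsN X) (by simp))).2 ⟨A, hA, ext fun y => ⟨fun hy => ?_, fun hy => ?_⟩⟩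
    · obtain ⟨n, hn, -, rfl⟩ := (E_setN natWf hA).1 hy
      exact (v_mem_iff (nN_mem n.down) hσ').2 ⟨q, hq', hn⟩
    · obtain ⟨n, rfl⟩ := E_om.1 (hx y hy)
      obtain ⟨r, hr, h⟩ := (v_mem_iff (nN_mem n) hσ').1 hy
      obtain ⟨s, -, h₁, h₂⟩ := g'.dir hr hq'
      exact (E_setN natWf hA).2 ⟨⟨n⟩, (H n).resolve_right fun h' => h' s h₂ (h.mono h₁),
        nN_mem n, rfl⟩

theorem udef_ch (i j : ℕ) : UDef.{u} (fun _ E w => CH E (w i) (w j)) := by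
  unfold CH
  repeat' first
    | exact UDef.mem _ _ | exact udef_sub _ _ | exact UDef.isInj _ _ _ | apply UDef.and
    | apply UDef.iff | apply UDef.all | apply UDef.ex

theorem ch (hk : o (w1 X) ∈ g.N) : CH g.E (g.v (omN X)) (g.v (o (w1 X))) := by
  obtain ⟨γ, j, hj⟩ := exists_reals_emb (X := X)
  refine dens (udef_ch 0 1) (l2 omN_mem hk) fun p _ => ⟨p, le_rfl,
    {realsN X, injN (fun A : Set (ULift.{u} ℕ) => setN natWf A) γ j}, (toFinite _).countable,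
    fun g' _ hC hl => ⟨_, _, E_reals (hC (by simp)), isInj_injN j.injective hj (hC (by simp))
      (hC (Or.inl rfl)) (hl _ (by simp)) fun A B hA hB e => ?_⟩⟩
  ext n
  rw [← ord_mem_setN_iff natWf natTri (nat_mem n) hA, e,
    ord_mem_setN_iff natWf natTri (nat_mem n) hB]

end Pool.Agent.MP_4faeaf_lc

end

section

namespace Pool.Agent.MP_4faeaf_lc

open Pool.Agent.MP_c6cf52_lc Pool.Agent.MP_c6cf52_lc.Name Pool.Agent.MP_c6cf52_lc.Gen Set Cardinal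

universe u

variable {X : Type u} [LinearOrder X] [Ms X]

variable (X) in
/-- The name of the measure. -/
noncomputable def uN : Name (Cond X) := fam fun Y : {Y : Set X // Y ∈ UU X} => sN Y.1

variable {g : Gen (Cond X)}

theorem E_u (h : uN X ∈ g.N) {x : g.M} :
    g.E x (g.v (uN X)) ↔ ∃ Y ∈ UU X, sN Y ∈ g.N ∧ g.v (sN Y) = x := by
  unfold uN at h ⊢
  rw [E_fam h]
  exact ⟨fun ⟨Y, h⟩ => ⟨Y.1, Y.2, h⟩, fun ⟨Y, h₁, h₂⟩ => ⟨⟨Y, h₁⟩, h₂⟩⟩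

theorem u_ne (hu : uN X ∈ g.N) {Y : g.M} (h : g.E Y (g.v (uN X))) : ∃ x, g.E x Y := by
  obtain ⟨Y, hY, hN, rfl⟩ := (E_u hu).1 h
  obtain ⟨α, hα⟩ := Ultrafilter.nonempty_of_mem hY
  exact dens (Ψ := fun _ E w => ∃ x, E x (w 0)) (UDef.ex (UDef.mem _ _)) (l1 hN) fun p _ =>
    ⟨p, le_rfl, {o α}, countable_singleton _, fun g' _ hC hl =>
      ⟨_, (o_mem_sN (hC rfl) (hl _ (by simp))).2 hα⟩⟩

theorem u_sub (hu : uN X ∈ g.N) (hk : sN univ ∈ g.N) {Y : g.M} (h : g.E Y (g.v (uN X))) :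
    Sub g.E Y (g.v (sN univ)) := by
  obtain ⟨Y, hY, hN, rfl⟩ := (E_u hu).1 h
  intro x hx
  obtain ⟨α, -, hα, rfl⟩ := (E_sN hN).1 hx
  exact (o_mem_sN hα hk).2 trivial

theorem u_avoid (hu : uN X ∈ g.N) (hk : sN univ ∈ g.N) {x : g.M} (h : g.E x (g.v (sN univ))) :
    ∃ Y, g.E Y (g.v (uN X)) ∧ ¬ g.E x Y := by
  obtain ⟨α, -, hα, rfl⟩ := (E_sN hk).1 h
  exact dens (Ψ := fun _ E w => ∃ Y, E Y (w 0) ∧ ¬ E (w 1) Y)
    (UDef.ex ((UDef.mem _ _).and (UDef.mem _ _).not)) (l2 hu hα) fun p _ =>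
    ⟨p, le_rfl, {sN {β | β ≠ α}}, countable_singleton _, fun g' _ hC hl =>
      ⟨_, (E_u (hl _ (by simp))).2 ⟨_, ne_mem α, hC rfl, rfl⟩, fun h =>
        (o_mem_sN (hl _ (by simp)) (hC rfl)).1 h rfl⟩⟩

theorem u_inter (hu : uN X ∈ g.N) {Y Z : g.M} (hY : g.E Y (g.v (uN X)))
    (hZ : g.E Z (g.v (uN X))) : ∃ T, g.E T (g.v (uN X)) ∧ ∀ x, g.E x T → g.E x Y ∧ g.E x Z := by
  obtain ⟨Y, hY₁, hY', rfl⟩ := (E_u hu).1 hY
  obtain ⟨Z, hZ₁, hZ', rfl⟩ := (E_u hu).1 hZ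
  refine dens (Ψ := fun _ E w => ∃ T, E T (w 0) ∧ ∀ x, E x T → E x (w 1) ∧ E x (w 2))
    (UDef.ex ((UDef.mem _ _).and (UDef.all ((UDef.mem _ _).imp
      ((UDef.mem _ _).and (UDef.mem _ _)))))) (l3 hu hY' hZ') fun p _ =>
    ⟨p, le_rfl, {sN (Y ∩ Z)}, countable_singleton _, fun g' _ hC hl =>
      ⟨_, (E_u (hl _ (by simp))).2 ⟨_, Filter.inter_mem hY₁ hZ₁, hC rfl, rfl⟩, fun x hx => ?_⟩⟩
  obtain ⟨α, hα, h, rfl⟩ := (E_sN (hC rfl)).1 hx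
  exact ⟨(o_mem_sN h (hl _ (by simp))).2 hα.1, (o_mem_sN h (hl _ (by simp))).2 hα.2⟩

theorem u_comp {Θ : ∀ M : Type (u + 1), (M → M → Prop) → M → M → M → Prop}
    (hΘ : ∀ i j k, UDef (fun M E w => Θ M E (w i) (w j) (w k))) (hu : uN X ∈ g.N)
    (hk : sN univ ∈ g.N) (f a : g.M) (ha : g.E a (g.v (sN univ)))
    (H : ∀ ξ, g.E ξ a → ∃ Y, g.E Y (g.v (uN X)) ∧ ∀ x, g.E x Y → ¬ Θ _ g.E f ξ x) :
    ∃ Z, g.E Z (g.v (uN X)) ∧ ∀ ξ x, g.E ξ a → g.E x Z → ¬ Θ _ g.E f ξ x := by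
  obtain ⟨γ, -, hγ, rfl⟩ := (E_sN hk).1 ha
  obtain ⟨σ, hσ, rfl⟩ := exists_v f
  let D : X → Set X → Cond X → Prop := fun ξ Y r => ∀ g' : Gen (Cond X), r ∈ g'.G → σ ∈ g'.N →
    o ξ ∈ g'.N → sN Y ∈ g'.N → ∀ x, g'.E x (g'.v (sN Y)) → ¬ Θ _ g'.E (g'.v σ) (g'.v (o ξ)) x
  choose A hA hA₁ hA₂ using fun ξ : Iio γ => Cond.small_predense {r | ∃ Y ∈ UU X, D ξ.1 Y r}
  choose Y hY hY' using fun (ξ : Iio γ) (d : A ξ) => hA ξ d.2
  have hZ : (⋂ ξ, ⋂ d, Y ξ d) ∈ UU X :=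
    Ms.comp _ (Ms.small γ) fun ξ => Ms.comp _ (hA₁ ξ) (hY ξ)
  refine dens (Ψ := fun M E w => (∀ ξ, E ξ (w 1) → ∃ Y, E Y (w 2) ∧
      ∀ x, E x Y → ¬ Θ M E (w 0) ξ x) → ∃ Z, E Z (w 2) ∧
      ∀ ξ x, E ξ (w 1) → E x Z → ¬ Θ M E (w 0) ξ x) (by
      repeat' first
        | exact UDef.mem _ _ | exact hΘ _ _ _ | apply UDef.and | apply UDef.not
        | apply UDef.imp | apply UDef.all | apply UDef.ex) (l3 hσ hγ hu)
    (fun p _ => ⟨p, le_rfl, {sN (⋂ ξ, ⋂ d, Y ξ d)}, countable_singleton _, fun g' _ hC hl H =>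
      ⟨_, (E_u (hl _ (by simp))).2 ⟨_, hZ, hC rfl, rfl⟩, fun ξ x hξ hx h => ?_⟩⟩) H
  have hσ' : σ ∈ g'.N := hl _ (by simp)
  obtain ⟨ξ, hξγ, hξ', rfl⟩ := (E_o (hl _ (by simp))).1 hξ
  obtain ⟨α, hα, hα', rfl⟩ := (E_sN (hC rfl)).1 hx
  obtain ⟨T, hT, h'⟩ := H _ hξ
  obtain ⟨T, hT₁, hT₂, rfl⟩ := (E_u (hl _ (by simp))).1 hT
  obtain ⟨r, -, hr⟩ := transfer (Ψ := fun M E w => Θ M E (w 0) (w 1) (w 2) ∧
      ∀ x, E x (w 3) → ¬ Θ M E (w 0) (w 1) x)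
    ((hΘ _ _ _).and (UDef.all ((UDef.mem _ _).imp (hΘ _ _ _).not))) (l4 hσ' hξ' hα' hT₂) ⟨h, h'⟩
  have hrD : D ξ T r := by
    intro g₂ h₁ h₂ h₃ h₄
    refine dens (Ψ := fun M E w => ∀ x, E x (w 2) → ¬ Θ M E (w 0) (w 1) x)
      (UDef.all ((UDef.mem _ _).imp (hΘ _ _ _).not)) (l3 h₂ h₃ h₄) fun p hp => ?_
    obtain ⟨q, -, q₁, q₂⟩ := g₂.dir hp h₁
    exact ⟨q, q₁, {o α}, countable_singleton _, fun g₃ hq hC hl =>
      (hr g₃ (g₃.up hq q₂) (l4 (hl _ (by simp)) (hl _ (by simp)) (hC rfl) (hl _ (by simp)))).2⟩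
  obtain ⟨d, hd, s, h₁, h₂⟩ := hA₂ ⟨ξ, hξγ⟩ r ⟨T, hT₁, hrD⟩
  obtain ⟨g₂, hs, hC₂⟩ := exists_gen s {σ, o ξ, o α, sN T, sN (Y ⟨ξ, hξγ⟩ ⟨d, hd⟩)}
    (toFinite _).countable
  exact hY' ⟨ξ, hξγ⟩ ⟨d, hd⟩ g₂ (g₂.up hs h₂) (hC₂ (by simp)) (hC₂ (by simp)) (hC₂ (by simp)) _
    ((o_mem_sN (hC₂ (by simp)) (hC₂ (by simp))).2 (mem_iInter.1 (mem_iInter.1 hα _) _))
    (hr g₂ (g₂.up hs h₁) (l4 (hC₂ (by simp)) (hC₂ (by simp)) (hC₂ (by simp)) (hC₂ (by simp)))).1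

theorem isCard_k (hu : uN X ∈ g.N) (hk : sN univ ∈ g.N) : IsCard g.E (g.v (sN univ)) := by
  refine ⟨isOrd_k hk, fun a ha ⟨f, hf⟩ => ?_⟩
  obtain ⟨Z, hZ, h⟩ := u_comp (Θ := fun _ E f ξ x => App E f x ξ) (fun _ _ _ => UDef.app _ _ _)
    hu hk f a ha fun ξ _ => by
      by_cases h : ∃ x, App g.E f x ξ
      · obtain ⟨x, hx⟩ := h
        obtain ⟨Y, hY, h⟩ := u_avoid hu hk (fun_mem hf.1 hx).1
        exact ⟨Y, hY, fun y hy h' => h (hf.2 _ _ _ h' hx ▸ hy)⟩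
      · exact ⟨_, (E_u hu).2 ⟨_, Filter.univ_mem, hk, rfl⟩, fun x _ h' => h ⟨x, h'⟩⟩
  obtain ⟨x, hx⟩ := u_ne hu hZ
  obtain ⟨ξ, h₁, h₂⟩ := fun_ex hf.1 (u_sub hu hk hZ x hx)
  exact h ξ x h₁ hx h₂

/-- `A` is disjoint from a member of `U`. -/
def Small {M : Type u} (E : M → M → Prop) (U A : M) : Prop := ∃ Y, E Y U ∧ ∀ x, E x Y → ¬ E x A

theorem udef_small (i j : ℕ) : UDef.{u} (fun _ E w => Small E (w i) (w j)) :=
  UDef.ex ((UDef.mem _ _).and (UDef.all ((UDef.mem _ _).imp (UDef.mem _ _).not)))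

theorem exists_ideal (U k : g.M) : ∃ I, ∀ A, g.E A I ↔ Sub g.E A k ∧ Small g.E U A := by
  obtain ⟨P, hP⟩ := exists_power k
  obtain ⟨I, hI⟩ := sep_udef (udef_small 1 0) [U] P
  exact ⟨I, fun A => (hI A).trans (and_congr_left fun _ => hP A)⟩

theorem isIdeal (hu : uN X ∈ g.N) (hk : sN univ ∈ g.N) {I : g.M}
    (hI : ∀ A, g.E A I ↔ Sub g.E A (g.v (sN univ)) ∧ Small g.E (g.v (uN X)) A) :
    IsIdeal g.E I (g.v (sN univ)) := by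
  refine ⟨fun A h => ((hI A).1 h).1, fun h => ?_, fun A B h hB => ?_, fun a A ha h => ?_,
    fun S a f A hS ha hf hA => ?_⟩
  · obtain ⟨Y, hY, h⟩ := ((hI _).1 h).2
    obtain ⟨x, hx⟩ := u_ne hu hY
    exact h x hx (u_sub hu hk hY x hx)
  · obtain ⟨h₁, Y, hY, h₂⟩ := (hI _).1 h
    exact (hI _).2 ⟨fun x hx => h₁ x (hB x hx), Y, hY, fun x hx h => h₂ x hx (hB x h)⟩
  · obtain ⟨Y, hY, h'⟩ := u_avoid hu hk ha
    exact (hI _).2 ⟨fun x hx => (h x).1 hx ▸ ha, Y, hY, fun x hx hx' => h' ((h x).1 hx' ▸ hx)⟩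
  · obtain ⟨Z, hZ, h⟩ := u_comp (Θ := fun _ E f ξ x => ∃ B, App E f B ξ ∧ E x B)
      (fun _ _ _ => UDef.ex ((UDef.app _ _ _).and (UDef.mem _ _))) hu hk f a ha fun ξ _ => by
        by_cases h : ∃ B, App g.E f B ξ
        · obtain ⟨B, hB⟩ := h
          obtain ⟨Y, hY, h⟩ := ((hI B).1 (hS B (fun_mem hf.1 hB).1)).2
          exact ⟨Y, hY, fun y hy ⟨B', h₁, h₂⟩ => h y hy (hf.2 _ _ _ h₁ hB ▸ h₂)⟩
        · exact ⟨_, (E_u hu).2 ⟨_, Filter.univ_mem, hk, rfl⟩, fun x _ ⟨B, h', _⟩ => h ⟨B, h'⟩⟩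
    refine (hI _).2 ⟨fun x hx => ?_, Z, hZ, fun x hx hx' => ?_⟩
    · obtain ⟨B, h₁, h₂⟩ := (hA x).1 hx
      exact ((hI B).1 (hS B h₁)).1 x h₂
    · obtain ⟨B, h₁, h₂⟩ := (hA x).1 hx'
      obtain ⟨ξ, h₃, h₄⟩ := fun_ex hf.1 h₁
      exact h ξ x h₃ hx ⟨B, h₄, h₂⟩

/-! ### Precipitousness -/

/-- The condition decides the rank of the value of `σ` at `α`. -/
def Dc (σ : Name (Cond X)) (α : X) (q : Cond X) (ξ : Ordinal.{u}) : Prop :=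
  ∃ ρ, Dec ρ q ξ ∧ ∀ g : Gen (Cond X), q ∈ g.G → σ ∈ g.N → o α ∈ g.N → ρ ∈ g.N →
    App g.E (g.v σ) (g.v (o α)) (g.v ρ)

noncomputable def aN (q : X → Cond X) (Y : Set X) : Name (Cond X) :=
  .mk Y (fun α => o α.1) (fun α => q α.1)

theorem E_aN {q : X → Cond X} {Y : Set X} (h : aN q Y ∈ g.N) {x : g.M} :
    g.E x (g.v (aN q Y)) ↔ ∃ α ∈ Y, q α ∈ g.G ∧ o α ∈ g.N ∧ g.v (o α) = x := by
  rw [E_v h]
  exact ⟨fun ⟨α, h⟩ => ⟨α.1, α.2, h⟩, fun ⟨α, h₁, h₂⟩ => ⟨⟨α, h₁⟩, h₂⟩⟩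

noncomputable def dN (σ : Name (Cond X)) : Name (Cond X) :=
  fam fun z : {z : (X → Cond X) × Set X // ∀ α ∈ z.2, ∃ ξ, Dc σ α (z.1 α) ξ} => aN z.1.1 z.1.2

theorem dN_dense (hu : uN X ∈ g.N) (hk : sN univ ∈ g.N) {σ : Name (Cond X)} (hσ : σ ∈ g.N)
    (hd : dN σ ∈ g.N) (hf : ∀ a, g.E a (g.v (sN univ)) → ∃ x, App g.E (g.v σ) a x) (B : g.M)
    (hB : ¬ Small g.E (g.v (uN X)) B) :
    ∃ A, g.E A (g.v (dN σ)) ∧ Sub g.E A B ∧ Sub g.E A (g.v (sN univ)) ∧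
      ¬ Small g.E (g.v (uN X)) A := by
  classical
  obtain ⟨β, hβ, rfl⟩ := exists_v B
  obtain ⟨p₀, hp₀, H⟩ := transfer (Ψ := fun M E w => (∀ a, E a (w 1) → ∃ x, App E (w 0) a x) ∧
      ¬ Small E (w 2) (w 3)) ((UDef.all ((UDef.mem _ _).imp (UDef.ex (UDef.app _ _ _)))).and
      (udef_small _ _).not) (l4 hσ hk hu hβ) ⟨hf, hB⟩
  refine dens (Ψ := fun M E w => ∃ A, E A (w 0) ∧ Sub E A (w 1) ∧ Sub E A (w 2) ∧
      ¬ Small E (w 3) A) (UDef.ex ((UDef.mem _ _).and ((udef_sub _ _).and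
      ((udef_sub _ _).and (udef_small _ _).not)))) (l4 hd hβ hk hu) fun p₁ hp₁ => ?_
  obtain ⟨p, -, hp, hp'⟩ := g.dir hp₁ hp₀
  let Y : Set X := {α | ∃ q ≤ p, FMem (o α) β q ∧ ∃ ξ, Dc σ α q ξ}
  have hY : Y ∈ UU X := by
    by_contra h
    obtain ⟨g', hg, hC⟩ := exists_gen p {σ, sN univ, uN X, β, sN Yᶜ} (toFinite _).countable
    have b₁ : σ ∈ g'.N := hC (by simp)
    have b₂ : sN univ ∈ g'.N := hC (by simp)
    have b₃ : β ∈ g'.N := hC (by simp)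
    have b₄ : sN Yᶜ ∈ g'.N := hC (by simp)
    obtain ⟨h₁, h₂⟩ := H g' (g'.up hg hp') (l4 b₁ b₂ (hC (by simp)) b₃)
    refine h₂ ⟨_, (E_u (hC (by simp))).2 ⟨_, Ultrafilter.compl_mem_iff_notMem.2 h, b₄, rfl⟩,
      fun x hx hx' => ?_⟩
    obtain ⟨α, hα, hα', rfl⟩ := (E_sN b₄).1 hx
    obtain ⟨y, hy⟩ := h₁ _ ((o_mem_sN hα' b₂).2 trivial)
    obtain ⟨ρ, hρ, rfl⟩ := exists_v y
    obtain ⟨r₁, hr₁, e₁⟩ := transfer_app b₁ hα' hρ hy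
    obtain ⟨r₂, hr₂, e₂⟩ := (v_mem_iff hα' b₃).1 hx'
    obtain ⟨r₃, hr₃, c₁, c₂⟩ := g'.dir hr₁ hr₂
    obtain ⟨r₄, -, c₃, c₄⟩ := g'.dir hr₃ hg
    obtain ⟨r₅, c₅, ξ, hξ⟩ := dec_dense ρ r₄
    exact hα ⟨r₅, c₅.trans c₄, e₂.mono (c₅.trans (c₃.trans c₂)), ξ, ρ, hξ,
      fun g₂ h => e₁ g₂ (g₂.up h (c₅.trans (c₃.trans c₁)))⟩
  have hq : ∀ α, ∃ q, α ∈ Y → q ≤ p ∧ FMem (o α) β q ∧ ∃ ξ, Dc σ α q ξ := fun α => by
    by_cases h : α ∈ Y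
    · obtain ⟨q, h⟩ := h
      exact ⟨q, fun _ => h⟩
    · exact ⟨p, fun h' => absurd h' h⟩
  choose q hq using hq
  obtain ⟨p', hp₂, hr⟩ := p.reduction q hY fun α h => (hq α h).1
  refine ⟨p', hp₂.trans hp, {aN q Y}, countable_singleton _, fun g' hg hC hl => ⟨g'.v (aN q Y),
    (E_fam (hl (dN σ) (by simp))).2 ⟨⟨(q, Y), fun α h => (hq α h).2.2⟩, hC rfl, rfl⟩,
    fun x hx => ?_, fun x hx => ?_, ?_⟩⟩
  · obtain ⟨α, h₁, h₂, h₃, rfl⟩ := (E_aN (hC rfl)).1 hx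
    exact (v_mem_iff h₃ (hl β (by simp))).2 ⟨_, h₂, (hq α h₁).2.1⟩
  · obtain ⟨α, -, -, h₃, rfl⟩ := (E_aN (hC rfl)).1 hx
    exact (o_mem_sN h₃ (hl _ (by simp))).2 trivial
  · rintro ⟨Z, hZ, h⟩
    obtain ⟨Z, hZ₁, hZ₂, rfl⟩ := (E_u (hl _ (by simp))).1 hZ
    obtain ⟨r, hr₁, h'⟩ := transfer (Ψ := fun M E w => ∀ x, E x (w 0) → ¬ E x (w 1))
      (UDef.all ((UDef.mem _ _).imp (UDef.mem _ _).not)) (l2 hZ₂ (hC rfl)) h
    obtain ⟨s, -, s₁, s₂⟩ := g'.dir hr₁ hg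
    obtain ⟨α, ⟨⟨t, t₁, t₂⟩, hα₁⟩, hα₂⟩ := Ultrafilter.nonempty_of_mem
      (Filter.inter_mem (Filter.inter_mem (hr s s₂) hY) hZ₁)
    obtain ⟨g₂, ht, hC₂⟩ := exists_gen t {sN Z, aN q Y, o α} (toFinite _).countable
    exact h' g₂ (g₂.up ht (t₂.trans s₁)) (l2 (hC₂ (by simp)) (hC₂ (by simp))) _
      ((o_mem_sN (hC₂ (by simp)) (hC₂ (by simp))).2 hα₂)
      ((E_aN (hC₂ (by simp))).2 ⟨α, hα₁, g₂.up ht t₁, hC₂ (by simp), rfl⟩)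

/-- The set on which two functions decrease. -/
def Desc {M : Type u} (E : M → M → Prop) (U A A' f f' : M) : Prop :=
  ∀ Y, E Y U → ∃ a, E a Y ∧ E a A ∧ E a A' ∧ ∀ x y, App E f' a x → App E f a y → E x y

theorem udef_desc : UDef.{u} (fun _ E w => Desc E (w 0) (w 1) (w 2) (w 3) (w 4)) := by
  unfold Desc
  repeat' first
    | exact UDef.mem _ _ | exact UDef.app _ _ _ | apply UDef.and
    | apply UDef.imp | apply UDef.all | apply UDef.ex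

theorem desc_mem (hu : uN X ∈ g.N) {σ σ' : Name (Cond X)} {q q' : X → Cond X} {Y Y' : Set X}
    {F F' : X → Ordinal.{u}} (hσ : σ ∈ g.N) (hσ' : σ' ∈ g.N) (ha : aN q Y ∈ g.N)
    (ha' : aN q' Y' ∈ g.N) (hF : ∀ α ∈ Y, Dc σ α (q α) (F α))
    (hF' : ∀ α ∈ Y', Dc σ' α (q' α) (F' α))
    (h : Desc g.E (g.v (uN X)) (g.v (aN q Y)) (g.v (aN q' Y')) (g.v σ) (g.v σ')) :
    {α | F' α < F α} ∈ UU X := by
  by_contra hn
  obtain ⟨p, -, H⟩ := transfer udef_desc (lcons hu (l4 ha ha' hσ hσ')) h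
  obtain ⟨g₁, hp, hC⟩ := exists_gen p {uN X, aN q Y, aN q' Y', σ, σ', sN {α | F' α < F α}ᶜ}
    (toFinite _).countable
  have b₁ : aN q Y ∈ g₁.N := hC (by simp)
  have b₂ : aN q' Y' ∈ g₁.N := hC (by simp)
  have b₃ : σ ∈ g₁.N := hC (by simp)
  have b₄ : σ' ∈ g₁.N := hC (by simp)
  have b₅ : sN {α | F' α < F α}ᶜ ∈ g₁.N := hC (by simp)
  obtain ⟨a, h₁, h₂, h₃, h₄⟩ := H g₁ hp (lcons (hC (by simp)) (l4 b₁ b₂ b₃ b₄)) _
    ((E_u (hC (by simp))).2 ⟨_, Ultrafilter.compl_mem_iff_notMem.2 hn, b₅, rfl⟩)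
  obtain ⟨α, hα, hα', rfl⟩ := (E_sN b₅).1 h₁
  obtain ⟨α₁, c₁, c₂, c₃, e⟩ := (E_aN b₁).1 h₂
  obtain rfl := o_inj c₃ hα' e
  obtain ⟨α₂, d₁, d₂, d₃, e⟩ := (E_aN b₂).1 h₃
  obtain rfl := o_inj d₃ hα' e
  obtain ⟨r, hr, H'⟩ := transfer (Ψ := fun M E w => ∀ x y, App E (w 1) (w 2) x →
      App E (w 0) (w 2) y → E x y) (UDef.all (UDef.all ((UDef.app _ _ _).imp
      ((UDef.app _ _ _).imp (UDef.mem _ _))))) (l3 b₃ b₄ hα') h₄
  obtain ⟨s, hs, s₁, s₂⟩ := g₁.dir c₂ d₂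
  obtain ⟨t, -, t₁, t₂⟩ := g₁.dir hs hr
  obtain ⟨ρ, r₁, r₂⟩ := hF _ c₁
  obtain ⟨ρ', r₃, r₄⟩ := hF' _ d₁
  obtain ⟨g₂, ht, hC₂⟩ := exists_gen t {σ, σ', o α₂, ρ, ρ'} (toFinite _).countable
  have := H' g₂ (g₂.up ht t₂) (l3 (hC₂ (by simp)) (hC₂ (by simp)) (hC₂ (by simp))) _ _
    (r₄ g₂ (g₂.up ht (t₁.trans s₂)) (hC₂ (by simp)) (hC₂ (by simp)) (hC₂ (by simp)))
    (r₂ g₂ (g₂.up ht (t₁.trans s₁)) (hC₂ (by simp)) (hC₂ (by simp)) (hC₂ (by simp)))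
  obtain ⟨v, hv, hm⟩ := (v_mem_iff (hC₂ (by simp)) (hC₂ (by simp))).1 this
  obtain ⟨z, -, z₁, z₂⟩ := g₂.dir hv ht
  exact hα (dec_lt (hm.mono z₁) (r₃.mono (z₂.trans (t₁.trans s₂)))
    (r₁.mono (z₂.trans (t₁.trans s₁))))

theorem precipitous (hu : uN X ∈ g.N) (hk : sN univ ∈ g.N) (hd : ∀ σ ∈ g.N, dN σ ∈ g.N) {I : g.M}
    (hI : ∀ A, g.E A I ↔ Sub g.E A (g.v (sN univ)) ∧ Small g.E (g.v (uN X)) A) :
    Precipitous g.E I (g.v (sN univ)) := by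
  classical
  intro G hG
  have hem : g.E (g.v emp) I := (hI _).2 ⟨fun x hx => absurd hx (not_E_emp x), _,
    (E_u hu).2 ⟨_, Filter.univ_mem, hk, rfl⟩, fun x _ => not_E_emp x⟩
  have key : ∀ f : {f // ∃ Y, IsFun g.E f (g.v (sN univ)) Y}, ∃ (σ : Name (Cond X))
      (q : X → Cond X) (Y : Set X) (F : X → Ordinal.{u}), σ ∈ g.N ∧ g.v σ = f.1 ∧ aN q Y ∈ g.N ∧
      g.v (aN q Y) ∈ G ∧ ∀ α ∈ Y, Dc σ α (q α) (F α) := by
    rintro ⟨f, T, hf⟩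
    obtain ⟨σ, hσ, rfl⟩ := exists_v f
    obtain ⟨A, hA, hA'⟩ := hG.2.2.2 (g.v (dN σ)) fun B hB => by
      obtain ⟨A, h₁, h₂, h₃, h₄⟩ := dN_dense hu hk hσ (hd σ hσ)
        (fun a ha => (hf.2 a ha).exists) B fun h => hB.2 ((hI B).2 ⟨hB.1, h⟩)
      exact ⟨A, h₁, ⟨h₃, fun h => h₄ ((hI A).1 h).2⟩, _, hem, fun x hx => Or.inl (h₂ x hx)⟩
    obtain ⟨⟨⟨q, Y⟩, h⟩, h₁, rfl⟩ := (E_fam (hd σ hσ)).1 hA'
    have h' : ∀ α ∈ Y, ∃ ξ, Dc σ α (q α) ξ := h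
    choose! F hF using h'
    exact ⟨σ, q, Y, F, hσ, rfl, h₁, hA, hF⟩
  choose σ q Y F h₁ h₂ h₃ h₄ h₅ using key
  have wf : WellFounded fun F' F : X → Ordinal.{u} => {α | F' α < F α} ∈ UU X := by
    rw [wellFounded_iff_isEmpty_descending_chain]
    refine ⟨fun ⟨s, hs⟩ => ?_⟩
    obtain ⟨α, hα⟩ := Ultrafilter.nonempty_of_mem (comp_ct _ hs)
    exact (wellFounded_iff_isEmpty_descending_chain.1 wellFounded_lt).false
      ⟨fun n => s n α, fun n => mem_iInter.1 hα n⟩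
  refine Subrelation.wf (fun {f' f} ⟨A, hA, h⟩ => ?_) (InvImage.wf F wf)
  refine desc_mem hu (h₁ f) (h₁ f') (h₃ f) (h₃ f') (h₅ f) (h₅ f') fun Z hZ => ?_
  rw [h₂, h₂]
  obtain ⟨B, hB, ⟨C₁, c₁, e₁⟩, C₂, c₂, e₂⟩ := hG.2.2.1 _ (h₄ f) _ (h₄ f')
  obtain ⟨D, hD, ⟨C₃, c₃, e₃⟩, C₄, c₄, e₄⟩ := hG.2.2.1 _ hA _ hB
  obtain ⟨Y₁, y₁, z₁⟩ := ((hI _).1 c₁).2
  obtain ⟨Y₂, y₂, z₂⟩ := ((hI _).1 c₂).2
  obtain ⟨Y₃, y₃, z₃⟩ := ((hI _).1 c₃).2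
  obtain ⟨Y₄, y₄, z₄⟩ := ((hI _).1 c₄).2
  obtain ⟨T₁, t₁, v₁⟩ := u_inter hu y₁ y₂
  obtain ⟨T₂, t₂, v₂⟩ := u_inter hu y₃ y₄
  obtain ⟨T₃, t₃, v₃⟩ := u_inter hu t₁ t₂
  obtain ⟨T₄, t₄, v₄⟩ := u_inter hu t₃ hZ
  by_contra hn
  refine (hG.1 D hD).2 ((hI D).2 ⟨(hG.1 D hD).1, T₄, t₄, fun x hx hx' => hn ?_⟩)
  have w₁ := v₁ x (v₃ x (v₄ x hx).1).1
  have w₂ := v₂ x (v₃ x (v₄ x hx).1).2
  have hxB := (e₄ x hx').resolve_right (z₄ x w₂.2)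
  exact ⟨x, (v₄ x hx).2, (e₁ x hxB).resolve_right (z₁ x w₁.1), (e₂ x hxB).resolve_right (z₂ x w₁.2),
    fun a b => h x a b ((e₃ x hx').resolve_right (z₃ x w₂.1))⟩

end Pool.Agent.MP_4faeaf_lc

end

section

namespace Pool.Agent.MP_4faeaf_lc

open Pool.Agent.MP_c6cf52_lc Pool.Agent.MP_c6cf52_lc.Name Pool.Agent.MP_c6cf52_lc.Gen Set Cardinal

universe u

section

variable {X : Type u} [LinearOrder X] [Ms X]

noncomputable def cutN (C : Cut X) : Name (Cond X) :=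
  .mk {z : X × Cond X // C.R z.1 z.2} (fun z => o z.1.1) (fun z => z.1.2)

/-- The legal move of Cut in round `j`. -/
def mv (f : ℕ → Cut X × Bool) (j : ℕ) : Cut X :=
  ⟨fun α r => (f j).1.R α r ∧ ∀ i < j, side (f i) α r, fun _ _ _ hq h =>
    ⟨(f j).1.mono _ _ _ hq h.1, fun i hi => side_mono (h.2 i hi) hq⟩⟩

noncomputable def initN (f : ℕ → Cut X × Bool) (k : ℕ) : Name (Cond X) :=
  relN (fun i : {i : ULift.{u} ℕ // i.down ≤ k} => nN X i.1.down) (fun i => cutN (mv f i.1.down))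
    (fun _ => ⊤)

noncomputable def seqN (f : ℕ → Cut X × Bool) : Name (Cond X) :=
  relN (fun i : ULift.{u} ℕ => nN X i.down) (fun i => cutN (mv f i.down)) (fun _ => ⊤)

noncomputable def rngN (f : ℕ → Cut X × Bool) : Name (Cond X) :=
  fam fun i : ULift.{u} ℕ => cutN (mv f i.down)

theorem initN_congr {f f' : ℕ → Cut X × Bool} {k : ℕ} (h₁ : (f k).1 = (f' k).1)
    (h₂ : ∀ i < k, f i = f' i) : initN f k = initN f' k := by
  unfold initN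
  congr 1
  funext ⟨⟨i⟩, hi⟩
  have e₁ : (f i).1 = (f' i).1 := by
    rcases (show i ≤ k from hi).eq_or_lt with rfl | h
    exacts [h₁, congrArg _ (h₂ i h)]
  congr 1
  unfold mv
  congr 1
  funext α r
  rw [e₁]
  exact congrArg _ (propext (forall₂_congr fun j hj => by rw [h₂ j (hj.trans_le hi)]))

variable {g : Gen (Cond X)}

theorem E_cutN {C : Cut X} (h : cutN C ∈ g.N) {x : g.M} :
    g.E x (g.v (cutN C)) ↔ ∃ α, ∃ r ∈ g.G, C.R α r ∧ o α ∈ g.N ∧ g.v (o α) = x := by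
  rw [E_v h]
  exact ⟨fun ⟨z, h₁, h₂⟩ => ⟨z.1.1, z.1.2, h₁, z.2, h₂⟩,
    fun ⟨α, r, h₁, h₂, h₃⟩ => ⟨⟨(α, r), h₂⟩, h₁, h₃⟩⟩

theorem o_cutN {C : Cut X} (h : cutN C ∈ g.N) {α : X} (hα : o α ∈ g.N) :
    g.E (g.v (o α)) (g.v (cutN C)) ↔ ∃ r ∈ g.G, C.R α r := by
  rw [E_cutN h]
  refine ⟨fun ⟨β, r, h₁, h₂, h₃, e⟩ => ⟨r, h₁, o_inj h₃ hα e ▸ h₂⟩,
    fun ⟨r, h₁, h₂⟩ => ⟨α, r, h₁, h₂, hα, rfl⟩⟩

theorem not_o_cutN {C : Cut X} (h : cutN C ∈ g.N) {α : X} (hα : o α ∈ g.N)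
    (hn : ¬ g.E (g.v (o α)) (g.v (cutN C))) : ∃ r ∈ g.G, ∀ r' ≤ r, ¬ C.R α r' := by
  obtain ⟨p, hp, H⟩ := transfer (UDef.mem 0 1).not (l2 hα h) hn
  refine ⟨p, hp, fun r hr h' => ?_⟩
  obtain ⟨g', hg, hC⟩ := exists_gen r {o α, cutN C} (toFinite _).countable
  exact H g' (g'.up hg hr) (l2 (hC (by simp)) (hC (by simp)))
    ((o_cutN (hC (by simp)) (hC (by simp))).2 ⟨r, hg, h'⟩)

theorem app_seqN {f : ℕ → Cut X × Bool} (h : seqN f ∈ g.N) {s t : g.M} :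
    App g.E (g.v (seqN f)) s t ↔ ∃ i, s = g.v (nN X i) ∧ t = g.v (cutN (mv f i)) := by
  unfold seqN at h ⊢
  rw [app_relN h]
  exact ⟨fun ⟨i, _, _, _, h⟩ => ⟨i.down, h⟩,
    fun ⟨i, h'⟩ => ⟨⟨i⟩, g.top, nN_mem _, (relN_mem h ⟨i⟩).2, h'⟩⟩

theorem isFun_seqN {f : ℕ → Cut X × Bool} (h : seqN f ∈ g.N) (h' : rngN f ∈ g.N) :
    IsFun g.E (g.v (seqN f)) (g.v (omN X)) (g.v (rngN f)) := by
  constructor
  · intro p hp
    obtain ⟨i, -, -, h₂, rfl⟩ := (E_relN h).1 hp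
    exact ⟨_, _, nN_om _, (E_fam h').2 ⟨i, h₂, rfl⟩, isPair_pr _ _⟩
  · intro a ha
    obtain ⟨n, rfl⟩ := E_om.1 ha
    refine ⟨_, (app_seqN h).2 ⟨n, rfl, rfl⟩, fun b hb => ?_⟩
    obtain ⟨i, e, rfl⟩ := (app_seqN h).1 hb
    rw [nN_inj e]

theorem isInit_initN {f : ℕ → Cut X × Bool} {k : ℕ} (h : seqN f ∈ g.N) (h' : initN f k ∈ g.N) :
    IsInit g.E (g.v (seqN f)) (g.v (nN X k)) (g.v (initN f k)) := by
  intro p
  unfold initN at h' ⊢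
  rw [E_relN h']
  constructor
  · rintro ⟨⟨⟨i⟩, hi⟩, -, -, -, rfl⟩
    refine ⟨app_iff.1 ((app_seqN h).2 ⟨i, rfl, rfl⟩), _, _, isPair_pr _ _, ?_⟩
    rcases (show i ≤ k from hi).eq_or_lt with rfl | h
    exacts [Or.inr rfl, Or.inl (nN_lt.2 h)]
  · rintro ⟨h₁, m, y, h₂, h₃⟩
    obtain rfl := isPair_iff.1 h₂
    obtain ⟨i, rfl, rfl⟩ := (app_seqN h).1 (app_iff.2 h₁)
    have hi : i ≤ k := h₃.elim (fun h => (nN_lt.1 h).le) fun h => (nN_inj h).le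
    exact ⟨⟨⟨i⟩, hi⟩, g.top, nN_mem _, (relN_mem h ⟨i⟩).2, rfl⟩

theorem udef_isInit (i j k : ℕ) : UDef.{u} (fun _ E w => IsInit E (w i) (w j) (w k)) := by
  unfold IsInit
  repeat' first
    | exact UDef.mem _ _ | exact UDef.eq _ _ | exact UDef.isPair _ _ _ | apply UDef.and
    | apply UDef.or | apply UDef.iff | apply UDef.all | apply UDef.ex

theorem udef_surv (i j k l m : ℕ) :
    UDef.{u} (fun _ E w => Surv E (w i) (w j) (w k) (w l) (w m)) := by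
  unfold Surv
  repeat' first
    | exact UDef.mem _ _ | exact UDef.app _ _ _ | exact udef_isInit _ _ _ | apply UDef.and
    | apply UDef.iff | apply UDef.imp | apply UDef.all

theorem not_chooseWins (hk : sN univ ∈ g.N) :
    ¬ ChooseWins g.E (g.v (omN X)) (g.v (sN univ)) := by
  rintro ⟨s, hs⟩
  obtain ⟨σ, hσ, rfl⟩ := exists_v s
  obtain ⟨p₀, -, H⟩ := transfer (Ψ := fun M E w => ∀ c Y, IsFun E c (w 1) Y →
      (∀ n A a, App E c n A → E a A → Surv E (w 2) (w 0) c n a) →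
      ∃ a b, a ≠ b ∧ Surv E (w 2) (w 0) c (w 1) a ∧ Surv E (w 2) (w 0) c (w 1) b) (by
      repeat' first
        | exact UDef.mem _ _ | exact UDef.app _ _ _ | exact UDef.isFun _ _ _
        | exact UDef.ne _ _ | exact udef_surv _ _ _ _ _ | apply UDef.and
        | apply UDef.imp | apply UDef.all | apply UDef.ex) (l3 hσ omN_mem hk) hs
  refine Strat.false (X := X) ⟨p₀, fun f k p => ∀ g' : Gen (Cond X), p ∈ g'.G → σ ∈ g'.N →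
    initN f k ∈ g'.N → (g'.E (g'.v (initN f k)) (g'.v σ) ↔ (f k).2 = true),
    fun f k p q hq h g' hg => h g' (g'.up hg hq), fun f f' k p e h => ?_, fun f k p C => ?_,
    fun f q hq hA => ?_⟩
  · rwa [← e k le_rfl, ← initN_congr (congrArg _ (e k le_rfl)) fun i hi => e i hi.le]
  · have e : ∀ b, initN (Function.update f k (C, b)) k = initN (Function.update f k (C, true)) k :=
      fun b => initN_congr (by simp) fun i hi => by simp [hi.ne]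
    obtain ⟨g', hp, hC⟩ := exists_gen p {σ, initN (Function.update f k (C, true)) k}
      (toFinite _).countable
    have hl := l2 (hC (Or.inr rfl)) (hC (Or.inl rfl))
    by_cases h : g'.E (g'.v (initN (Function.update f k (C, true)) k)) (g'.v σ)
    · obtain ⟨r, hr, H'⟩ := transfer (UDef.mem 0 1) hl h
      obtain ⟨q, -, h₁, h₂⟩ := g'.dir hp hr
      exact ⟨q, h₁, true, fun g₂ hq a b => iff_of_true (H' g₂ (g₂.up hq h₂) (l2 b a)) (by simp)⟩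
    · obtain ⟨r, hr, H'⟩ := transfer (UDef.mem 0 1).not hl h
      obtain ⟨q, -, h₁, h₂⟩ := g'.dir hp hr
      refine ⟨q, h₁, false, fun g₂ hq a b => ?_⟩
      rw [e] at b ⊢
      exact iff_of_false (H' g₂ (g₂.up hq h₂) (l2 b a)) (by simp)
  · obtain ⟨g', hg, hC⟩ := exists_gen q ({σ, sN univ, seqN f, rngN f} ∪ range (initN f))
      ((toFinite _).countable.union (countable_range _))
    have b₁ : σ ∈ g'.N := hC (Or.inl (by simp))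
    have b₂ : sN univ ∈ g'.N := hC (Or.inl (by simp))
    have b₃ : seqN f ∈ g'.N := hC (Or.inl (by simp))
    have b₄ : rngN f ∈ g'.N := hC (Or.inl (by simp))
    have b₅ : ∀ k, initN f k ∈ g'.N := fun k => hC (Or.inr ⟨k, rfl⟩)
    have b₆ : ∀ k, cutN (mv f k) ∈ g'.N := fun k => (relN_mem b₃ ⟨k⟩).2
    have hin : ∀ k t, IsInit g'.E (g'.v (seqN f)) (g'.v (nN X k)) t →
        (g'.E t (g'.v σ) ↔ (f k).2 = true) := fun k t ht => by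
      rw [show t = g'.v (initN f k) from
        ext fun x => (ht x).trans (isInit_initN b₃ (b₅ k) x).symm]
      exact hA k g' hg b₁ (b₅ k)
    obtain ⟨a, b, hne, ha, hb⟩ := H g' (g'.up hg hq) (l3 b₁ omN_mem b₂) _ _ (isFun_seqN b₃ b₄) (by
      intro n A a hn ha
      obtain ⟨n, rfl, rfl⟩ := (app_seqN b₃).1 hn
      obtain ⟨α, r, hr, h₁, hα, rfl⟩ := (E_cutN (b₆ n)).1 ha
      refine ⟨(o_mem_sN hα b₂).2 trivial, fun m A t hm hA' ht => ?_⟩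
      obtain ⟨m, rfl, rfl⟩ := (app_seqN b₃).1 hA'
      have hm' : m < n := nN_lt.1 hm
      refine (hin m t ht).trans (Iff.trans ?_ (o_cutN (b₆ m) hα).symm)
      have h₂ := h₁.2 m hm'
      generalize e : f m = z at h₂
      obtain ⟨C, _ | _⟩ := z
      · refine iff_of_false (by simp) fun ⟨r', hr', h₃⟩ => ?_
        obtain ⟨s, -, s₁, s₂⟩ := g'.dir hr hr'
        have h₄ : (f m).1.R α r' := h₃.1
        rw [e] at h₄
        exact h₂ s s₁ (C.mono _ _ _ s₂ h₄)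
      · refine iff_of_true rfl ⟨r, hr, ?_, fun i hi => h₁.2 i (hi.trans hm')⟩
        rw [e]
        exact h₂)
    have key : ∀ a, Surv g'.E (g'.v (sN univ)) (g'.v σ) (g'.v (seqN f)) (g'.v (omN X)) a →
        ∃ α, g'.v (o α) = a ∧ ∀ k, ∃ r ∈ g'.G, ∀ i < k, side (f i) α r := by
      intro a ha
      obtain ⟨α, -, hα, rfl⟩ := (E_sN b₂).1 ha.1
      refine ⟨α, rfl, fun k => ?_⟩
      induction k with
      | zero => exact ⟨q, hg, fun _ h => absurd h (Nat.not_lt_zero _)⟩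
      | succ k ih =>
        obtain ⟨r, hr, h₁⟩ := ih
        have h₂ := (hin k _ (isInit_initN b₃ (b₅ k))).symm.trans
          (ha.2 _ _ _ (nN_om k) ((app_seqN b₃).2 ⟨k, rfl, rfl⟩) (isInit_initN b₃ (b₅ k)))
        suffices ∃ r' ∈ g'.G, r' ≤ r ∧ side (f k) α r' by
          obtain ⟨r', h₃, h₄, h₅⟩ := this
          refine ⟨r', h₃, fun i hi => ?_⟩
          rcases Nat.lt_succ_iff_lt_or_eq.1 hi with hi | rfl
          exacts [side_mono (h₁ i hi) h₄, h₅]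
        generalize e : f k = z at h₂
        obtain ⟨C, _ | _⟩ := z
        · obtain ⟨r', hr', h₃⟩ := not_o_cutN (b₆ k) hα fun h => by simpa using h₂.2 h
          obtain ⟨s, hs, s₁, s₂⟩ := g'.dir hr hr'
          refine ⟨s, hs, s₁, fun t ht h => h₃ t (ht.trans s₂) ⟨?_, fun i hi =>
            side_mono (h₁ i hi) (ht.trans s₁)⟩⟩
          rw [e]
          exact h
        · obtain ⟨r', hr', h₃⟩ := (o_cutN (b₆ k) hα).1 (h₂.1 rfl)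
          obtain ⟨s, hs, s₁, s₂⟩ := g'.dir hr hr'
          have h₄ : (f k).1.R α r' := h₃.1
          rw [e] at h₄
          exact ⟨s, hs, s₁, C.mono _ _ _ s₂ h₄⟩
    obtain ⟨α, rfl, hα⟩ := key a ha
    obtain ⟨β, rfl, hβ⟩ := key b hb
    have : ∀ k, ∃ r ∈ g'.G, r ≤ q ∧ side (f k) α r ∧ side (f k) β r := fun k => by
      obtain ⟨r₁, h₁, h₂⟩ := hα (k + 1)
      obtain ⟨r₂, h₃, h₄⟩ := hβ (k + 1)
      obtain ⟨s, hs, s₁, s₂⟩ := g'.dir h₁ h₃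
      obtain ⟨t, ht, t₁, t₂⟩ := g'.dir hs hg
      exact ⟨t, ht, t₂, side_mono (h₂ k (Nat.lt_succ_self k)) (t₁.trans s₁),
        side_mono (h₄ k (Nat.lt_succ_self k)) (t₁.trans s₂)⟩
    choose r h₁ h₂ h₃ using this
    obtain ⟨t, ht⟩ := lower_of_dir Cond.closed g' r h₁
    exact ⟨t, (ht 0).trans (h₂ 0), α, β, fun e => hne (e ▸ rfl),
      fun k => ⟨side_mono (h₃ k).1 (ht k), side_mono (h₃ k).2 (ht k)⟩⟩

theorem main' (X : Type u) [LinearOrder X] [Ms X] : ∃ (M : Type (u + 1)) (E : M → M → Prop), Countable M ∧ WellFounded E ∧ IsZFC E ∧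
    ∃ w w1 w2 I, IsOmega E w ∧ IsSuccCard E w w1 ∧ IsSuccCard E w1 w2 ∧ CH E w w1 ∧
      IsIdeal E I w2 ∧ Precipitous E I w2 ∧ ¬ ChooseWins E w w2 := by
  obtain ⟨g, hN, hC, hd⟩ := exists_gen' {o (w1 X), sN univ, uN X} (toFinite _).countable dN
  have h₁ : o (w1 X) ∈ g.N := hC (by simp)
  have hk : sN univ ∈ g.N := hC (by simp)
  have hu : uN X ∈ g.N := hC (by simp)
  obtain ⟨I, hI⟩ := exists_ideal (g.v (uN X)) (g.v (sN univ))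
  exact ⟨g.M, g.E, countable_M hN, E_wf, g.isZFC, _, _, _, I, isOmega_om,
    ⟨isCard_w1 h₁, om_mem_w1 h₁, no_card_om h₁⟩,
    ⟨isCard_k hu hk, (o_mem_sN h₁ hk).2 trivial, no_card_between h₁ hk⟩, ch h₁, isIdeal hu hk hI,
    precipitous hu hk hd hI, not_chooseWins hk⟩

end

theorem main (X : Type u) [Uncountable X] (U : Ultrafilter X)
    (hU : CardinalInterFilter (U : Filter X) #X) (np : ∀ x, {x} ∉ U) :
    ∃ (M : Type (u + 1)) (E : M → M → Prop), Countable M ∧ WellFounded E ∧ IsZFC E ∧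
    ∃ w w1 w2 I, IsOmega E w ∧ IsSuccCard E w w1 ∧ IsSuccCard E w1 w2 ∧ CH E w w1 ∧
      IsIdeal E I w2 ∧ Precipitous E I w2 ∧ ¬ ChooseWins E w w2 := by
  obtain ⟨r, wo, hr⟩ := Cardinal.exists_ord_eq X
  let _ : LinearOrder X := IsWellOrder.linearOrder r
  let _ : Ms X :=
    { U := U
      wf := ⟨wo.wf⟩
      comp := fun s h H => (Filter.cardinal_iInter_mem h).2 H
      np := np
      small := fun x => card_typein_lt x hr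
      unc := aleph0_lt_mk }
  exact main' X

end Pool.Agent.MP_4faeaf_lc

end
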